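import Pool.Agent.N929.AP.Stm
import Pool.Agent.N832.AP.CN
import Pool.Agent.N710.AP.TSP
import Pool.Agent.N744.AP.Cnt
import Pool.Agent.N342.AP.PT
import Pool.Agent.N505.AP.LOW
import Pool.Agent.N929.EG.MomT
import Pool.Agent.N929.EG.Two

/-!
Regularity of the numbers of fixed polyominoes (`Pool.Agent.N929.AP.Main`, without the part on
analytic continuation).
-/

set_option autoImplicit false
set_option linter.unusedVariables false

namespace Pool.Agent.U954.PO

open Finset Filter Topology Pool.Agent.N929.EG Pool.Agent.N789.Kl Pool.Agent.N929.AP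
open scoped Classical

noncomputable section

/-- the system of moves -/
theorem sysP' : ∃ Y : TS (Finset Cell) Cell, (∀ n, Y.K n = Tm n) ∧ Y.s = 1 ∧
    Gr Y lam (fun n => 2 * Real.log n ^ 2) := by
  obtain ⟨Y, hK, hS, hB, hs⟩ := Pool.Agent.N710.AP.tsp Pool.Agent.N832.AP.cn
  refine ⟨Y, hK, hs, one_le_lam, phi_log 2 le_rfl, fun n m hn hm => ?_, ?_⟩
  · rw [hK, ← t_eq]
    refine (t_le_lam m).trans ?_
    have h1 : (1 : ℝ) ≤ Real.exp (2 * Real.log n ^ 2) := Real.one_le_exp (by positivity)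
    exact le_mul_of_one_le_right (pow_nonneg lam_pos.le m) h1
  · obtain ⟨M, θ, C', h1, h2, h3, h4, h5⟩ :=
      Pool.Agent.N342.AP.pt (Pool.Agent.N744.AP.cnt Pool.Agent.N832.AP.cn)
    refine ⟨M, θ, C', h1, h2, h3, h4, fun n => ?_⟩
    have h6 := h5 n
    unfold bad
    simp only [hK, hS, hB]
    exact h6

/-- regularity to all orders -/
theorem orders' : ∀ r : ℕ, 1 ≤ r → ∃ C : ℝ, 0 < C ∧ ∀ n : ℕ, 2 ≤ n →
    |∑ i ∈ range (r + 1), (-1 : ℝ) ^ i * (r.choose i : ℝ) *
      Real.log ((t (n + i) : ℝ) / lam ^ (n + i))| ≤ C * (Real.log n / Real.sqrt n) ^ r := by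
  obtain ⟨Y, hK, hs, G⟩ := sysP'
  obtain ⟨K, hK0, hlow⟩ := Pool.Agent.N505.AP.low
  intro r hr
  obtain ⟨C, hC, h⟩ := cntT Y G ⟨K / 2, by positivity, fun n hn => by
    rw [hK, ← t_eq]
    have h1 := hlow n hn
    have e : K / 2 * (2 * Real.log n ^ 2) = K * Real.log n ^ 2 := by ring
    rw [e, mul_comm]
    exact h1⟩ r hr
  refine ⟨C * (Real.sqrt 2) ^ r, by positivity, fun n hn => ?_⟩
  have h1 := h n hn
  rw [hs] at h1
  simp only [hK, one_mul, ← t_eq] at h1
  rw [sqrt_phi (by norm_num) n, mul_pow] at h1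
  rw [mul_assoc]
  exact h1

end

end Pool.Agent.U954.PO
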