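import Pool.Agent.U954.PO.Cnt

/-!
The mean of `t(n) / lam^n` tends to zero.
-/

set_option autoImplicit false

namespace Pool.Agent.U954.PO

open Pool.Agent.N789.Kl Finset

/-- normalised numbers of polyominoes -/
noncomputable def aa (n : ℕ) : ℝ := (t n : ℝ) / lam ^ n

lemma aa_nonneg (n : ℕ) : 0 ≤ aa n := by
  unfold aa
  have := lam_pos
  positivity

lemma aa_le_one (n : ℕ) : aa n ≤ 1 := by
  unfold aa
  have := lam_pos
  rw [div_le_one (by positivity)]
  exact t_le_lam n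

lemma t_eq_aa (n : ℕ) : (t n : ℝ) = aa n * lam ^ n := by
  unfold aa
  have := lam_pos
  field_simp

lemma step_ineq (K N : ℕ) :
    (K : ℝ) * ∑ p ∈ (HasAntidiagonal.antidiagonal N).filter (fun p => K * K ≤ p.1), aa p.1 * aa p.2 ≤
      2 * ((N + 2) * lam) := by
  have hl := lam_pos
  have h1 : ((K * ∑ p ∈ (HasAntidiagonal.antidiagonal N).filter (fun p => K * K ≤ p.1),
      t p.1 * t p.2 : ℕ) : ℝ) ≤ ((2 * ((N + 2) * t (N + 1)) : ℕ) : ℝ) := by
    exact_mod_cast main_ineq K N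
  push_cast at h1
  have h2 : ∑ p ∈ (HasAntidiagonal.antidiagonal N).filter (fun p => K * K ≤ p.1),
      ((t p.1 : ℝ) * t p.2) = lam ^ N *
      ∑ p ∈ (HasAntidiagonal.antidiagonal N).filter (fun p => K * K ≤ p.1), aa p.1 * aa p.2 := by
    rw [mul_sum]
    refine sum_congr rfl (fun p hp => ?_)
    rw [mem_filter, HasAntidiagonal.mem_antidiagonal] at hp
    rw [t_eq_aa p.1, t_eq_aa p.2, ← hp.1, pow_add]
    ring
  rw [h2] at h1
  have h3 := t_le_lam (N + 1)
  have hN : (0 : ℝ) ≤ (N : ℝ) + 2 := by positivity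
  have h4 : lam ^ N * ((K : ℝ) * ∑ p ∈ (HasAntidiagonal.antidiagonal N).filter
      (fun p => K * K ≤ p.1), aa p.1 * aa p.2) ≤ lam ^ N * (2 * ((N + 2) * lam)) := by
    calc lam ^ N * ((K : ℝ) * ∑ p ∈ (HasAntidiagonal.antidiagonal N).filter
      (fun p => K * K ≤ p.1), aa p.1 * aa p.2) = (K : ℝ) * (lam ^ N *
        ∑ p ∈ (HasAntidiagonal.antidiagonal N).filter (fun p => K * K ≤ p.1), aa p.1 * aa p.2) := by
          ring
      _ ≤ 2 * ((N + 2) * t (N + 1)) := h1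
      _ ≤ 2 * ((N + 2) * lam ^ (N + 1)) := by gcongr
      _ = lam ^ N * (2 * ((N + 2) * lam)) := by ring
  exact le_of_mul_le_mul_left h4 (by positivity)

lemma double_sum (K M : ℕ) : (∑ n ∈ Ico (K * K) M, aa n) * ∑ m ∈ range M, aa m ≤
    ∑ N ∈ range (2 * M), ∑ p ∈ (HasAntidiagonal.antidiagonal N).filter (fun p => K * K ≤ p.1),
      aa p.1 * aa p.2 := by
  rw [sum_mul_sum, ← sum_product']
  have h1 : ∀ x ∈ Ico (K * K) M ×ˢ range M, x.1 + x.2 ∈ range (2 * M) := by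
    intro x hx
    rw [mem_product, mem_Ico, mem_range] at hx
    rw [mem_range]
    omega
  rw [← sum_fiberwise_of_maps_to h1]
  refine sum_le_sum (fun N _ => ?_)
  apply sum_le_sum_of_subset_of_nonneg
  · intro x hx
    rw [mem_filter, mem_product, mem_Ico, mem_range] at hx
    rw [mem_filter, HasAntidiagonal.mem_antidiagonal]
    exact ⟨hx.2, hx.1.1.1⟩
  · intro x _ _
    exact mul_nonneg (aa_nonneg _) (aa_nonneg _)

lemma sum_ineq (K M : ℕ) (hM : 1 ≤ M) (hK : K * K ≤ M) :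
    (K : ℝ) * (∑ m ∈ range M, aa m) ^ 2 ≤ 16 * lam * M ^ 2 + K ^ 3 * M := by
  have hl := lam_pos
  have hK0 : (0 : ℝ) ≤ K := Nat.cast_nonneg _
  have hM1 : (1 : ℝ) ≤ M := by exact_mod_cast hM
  have h1 := mul_le_mul_of_nonneg_left (double_sum K M) hK0
  have h2 : (K : ℝ) * ∑ N ∈ range (2 * M), ∑ p ∈ (HasAntidiagonal.antidiagonal N).filter
      (fun p => K * K ≤ p.1), aa p.1 * aa p.2 ≤ 16 * lam * M ^ 2 := by
    rw [mul_sum]
    calc ∑ N ∈ range (2 * M), (K : ℝ) * ∑ p ∈ (HasAntidiagonal.antidiagonal N).filter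
          (fun p => K * K ≤ p.1), aa p.1 * aa p.2
        ≤ ∑ N ∈ range (2 * M), 8 * lam * M := by
          refine sum_le_sum (fun N hN => ?_)
          refine (step_ineq K N).trans ?_
          rw [mem_range] at hN
          have hN' : (N : ℝ) + 2 ≤ 4 * M := by
            have : N + 2 ≤ 4 * M := by omega
            exact_mod_cast this
          nlinarith
      _ = 16 * lam * M ^ 2 := by
          rw [sum_const, card_range, nsmul_eq_mul]
          push_cast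
          ring
  set s : ℝ := ∑ m ∈ range M, aa m with hs
  have hs0 : 0 ≤ s := sum_nonneg (fun _ _ => aa_nonneg _)
  have hsM : s ≤ M := by
    calc s ≤ ∑ m ∈ range M, (1 : ℝ) := sum_le_sum (fun _ _ => aa_le_one _)
      _ = M := by simp
  have h3 : s - (K * K : ℕ) ≤ ∑ n ∈ Ico (K * K) M, aa n := by
    have e : s = ∑ n ∈ range (K * K), aa n + ∑ n ∈ Ico (K * K) M, aa n := by
      rw [hs, sum_range_add_sum_Ico _ hK]
    have : ∑ n ∈ range (K * K), aa n ≤ (K * K : ℕ) := by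
      calc ∑ n ∈ range (K * K), aa n ≤ ∑ n ∈ range (K * K), (1 : ℝ) :=
            sum_le_sum (fun _ _ => aa_le_one _)
        _ = (K * K : ℕ) := by simp
    linarith
  have h4 : (s - (K * K : ℕ)) * s ≤ (∑ n ∈ Ico (K * K) M, aa n) * s :=
    mul_le_mul_of_nonneg_right h3 hs0
  have h5 : (K : ℝ) * ((s - (K * K : ℕ)) * s) ≤ 16 * lam * M ^ 2 :=
    (mul_le_mul_of_nonneg_left h4 hK0).trans (h1.trans h2)
  push_cast at h5
  have h6 : (K : ℝ) ^ 3 * s ≤ K ^ 3 * M := mul_le_mul_of_nonneg_left hsM (by positivity)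
  nlinarith

/-- the means of `t n / lam ^ n` tend to zero -/
theorem cesaro (ε : ℝ) (hε : 0 < ε) : ∃ M₀ : ℕ, ∀ M, M₀ ≤ M → ∑ n ∈ range M, aa n ≤ ε * M := by
  have hl := lam_pos
  obtain ⟨K, hK⟩ := exists_nat_gt ((16 * lam + 1) / ε ^ 2)
  rw [div_lt_iff₀ (by positivity)] at hK
  refine ⟨K ^ 3 + K * K + 1, fun M hM => ?_⟩
  have hK3 : 0 ≤ K ^ 3 := Nat.zero_le _
  have h1 := sum_ineq K M (by omega) (by
    have : 0 ≤ K ^ 3 := Nat.zero_le _
    omega)
  have hM0 : (0 : ℝ) ≤ M := Nat.cast_nonneg _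
  have h2 : (K : ℝ) ^ 3 ≤ M := by
    have : K ^ 3 ≤ M := by
      have := Nat.zero_le (K * K)
      omega
    exact_mod_cast this
  have h3 : (K : ℝ) ^ 3 * M ≤ M * M := mul_le_mul_of_nonneg_right h2 hM0
  set s : ℝ := ∑ n ∈ range M, aa n with hs
  have hs0 : 0 ≤ s := sum_nonneg (fun _ _ => aa_nonneg _)
  have h4 : (K : ℝ) * s ^ 2 ≤ (16 * lam + 1) * M ^ 2 := by nlinarith
  have hKp : (0 : ℝ) < K := by
    by_contra hcon
    push Not at hcon
    have : (K : ℝ) = 0 := le_antisymm hcon (Nat.cast_nonneg _)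
    rw [this] at hK
    linarith
  have h5 : (K : ℝ) * s ^ 2 ≤ K * (ε * M) ^ 2 := by
    refine h4.trans ?_
    have : (16 * lam + 1) * (M : ℝ) ^ 2 ≤ (K * ε ^ 2) * M ^ 2 :=
      mul_le_mul_of_nonneg_right hK.le (by positivity)
    linarith [this, show (K * ε ^ 2) * (M : ℝ) ^ 2 = K * (ε * M) ^ 2 by ring]
  have h6 : s ^ 2 ≤ (ε * M) ^ 2 := le_of_mul_le_mul_left h5 hKp
  exact abs_le_of_sq_le_sq' h6 (by positivity) |>.2

end Pool.Agent.U954.PO
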