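import Pool.Agent.U954.PO.Glue

/-!
Counting the glued polyominoes.
-/

set_option autoImplicit false

namespace Pool.Agent.U954.PO

open Pool.Agent.N789.Kl Finset

/-- differences of rows -/
def S (P Q : Finset Cell) : Finset ℤ := (P ×ˢ Q).image (fun x => x.1.2 - x.2.2)

/-- the number of rows -/
def rws (P : Finset Cell) : ℕ := (P.image Prod.snd).card

/-- the number of columns -/
def cls (P : Finset Cell) : ℕ := (P.image Prod.fst).card

lemma mem_S {P Q : Finset Cell} {s : ℤ} : s ∈ S P Q ↔ ∃ p ∈ P, ∃ q ∈ Q, s = p.2 - q.2 := by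
  unfold S
  simp only [mem_image, mem_product]
  constructor
  · rintro ⟨x, ⟨h1, h2⟩, h3⟩
    exact ⟨x.1, h1, x.2, h2, h3.symm⟩
  · rintro ⟨p, hp, q, hq, h⟩
    exact ⟨(p, q), ⟨hp, hq⟩, h.symm⟩

lemma rws_le (P : Finset Cell) {Q : Finset Cell} (hQ : Q.Nonempty) : rws P ≤ (S P Q).card := by
  obtain ⟨q, hq⟩ := hQ
  unfold rws
  apply card_le_card_of_injOn (fun r => r - q.2)
  · intro r hr
    rw [mem_coe, mem_image] at hr
    obtain ⟨p, hp, rfl⟩ := hr
    rw [mem_coe, mem_S]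
    exact ⟨p, hp, q, hq, rfl⟩
  · intro a _ b _ h
    simpa using h

theorem count (N : ℕ) : ∑ p ∈ HasAntidiagonal.antidiagonal N, ∑ x ∈ Tm p.1 ×ˢ Tm p.2,
    (S x.1 x.2).card ≤ (N + 2) * t (N + 1) := by
  classical
  have hc : ∀ (P Q : Finset Cell) (s : ℤ), P.Nonempty ∧ Q.Nonempty ∧ s ∈ S P Q →
      ∃ wc : Cell × Cell, wc.1.2 = s ∧ Gl P Q wc.1 wc.2 := by
    rintro P Q s ⟨hP, hQ, hs⟩
    obtain ⟨w, c, h1, h2⟩ := exists_gl hP hQ (mem_S.1 hs)
    exact ⟨(w, c), h1, h2⟩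
  choose! f hf1 hf2 using hc
  have hg : ∀ V : Finset Cell, Conn V → ∃ v, shift v V ∈ Tm V.card := fun V hV => exists_canon hV
  choose! g hg using hg
  set X : Finset (Σ _ : ℕ × ℕ, Σ _ : Finset Cell × Finset Cell, ℤ) :=
    (HasAntidiagonal.antidiagonal N).sigma (fun p => (Tm p.1 ×ˢ Tm p.2).sigma (fun x => S x.1 x.2))
    with hX
  have hcard : X.card = ∑ p ∈ HasAntidiagonal.antidiagonal N, ∑ x ∈ Tm p.1 ×ˢ Tm p.2,
      (S x.1 x.2).card := by
    rw [hX, card_sigma]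
    refine sum_congr rfl (fun p _ => ?_)
    rw [card_sigma]
  rw [← hcard]
  have hmem : ∀ y ∈ X, y.1.1 + y.1.2 = N ∧ y.2.1.1 ∈ Tm y.1.1 ∧ y.2.1.2 ∈ Tm y.1.2 ∧
      y.2.2 ∈ S y.2.1.1 y.2.1.2 := by
    intro y hy
    rw [hX, mem_sigma, mem_sigma, mem_product, HasAntidiagonal.mem_antidiagonal] at hy
    exact ⟨hy.1, hy.2.1.1, hy.2.1.2, hy.2.2⟩
  set V : (Σ _ : ℕ × ℕ, Σ _ : Finset Cell × Finset Cell, ℤ) → Finset Cell := fun y =>
    gl y.2.1.1 y.2.1.2 (f y.2.1.1 y.2.1.2 y.2.2).1 (f y.2.1.1 y.2.1.2 y.2.2).2 with hV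
  have hGl : ∀ y ∈ X, (f y.2.1.1 y.2.1.2 y.2.2).1.2 = y.2.2 ∧
      Gl y.2.1.1 y.2.1.2 (f y.2.1.1 y.2.1.2 y.2.2).1 (f y.2.1.1 y.2.1.2 y.2.2).2 := by
    intro y hy
    obtain ⟨h1, h2, h3, h4⟩ := hmem y hy
    have h5 : y.2.1.1.Nonempty ∧ y.2.1.2.Nonempty ∧ y.2.2 ∈ S y.2.1.1 y.2.1.2 :=
      ⟨(mem_Tm.1 h2).2.1.1, (mem_Tm.1 h3).2.1.1, h4⟩
    exact ⟨hf1 _ _ _ h5, hf2 _ _ _ h5⟩
  have hVc : ∀ y ∈ X, (V y).card = N + 1 ∧ Conn (V y) := by
    intro y hy
    obtain ⟨h1, h2, h3, h4⟩ := hmem y hy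
    have h5 := (hGl y hy).2
    refine ⟨?_, h5.conn (mem_Tm.1 h2).2.1 (mem_Tm.1 h3).2.1⟩
    have h6 := h5.card
    rw [(mem_Tm.1 h2).1, (mem_Tm.1 h3).1, h1] at h6
    exact h6
  have hT : (N + 2) * t (N + 1) = (Tm (N + 1) ×ˢ range (N + 2)).card := by
    rw [card_product, card_range, t_eq, mul_comm]
  rw [hT]
  apply card_le_card_of_injOn (fun y => (shift (g (V y)) (V y), rk (V y) (f y.2.1.1 y.2.1.2 y.2.2).2))
  · intro y hy
    rw [mem_coe] at hy
    simp only [coe_product, Set.mem_prod, mem_coe, mem_range]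
    obtain ⟨h1, h2⟩ := hVc y hy
    refine ⟨?_, ?_⟩
    · have := hg _ h2
      rwa [h1] at this
    · have : rk (V y) (f y.2.1.1 y.2.1.2 y.2.2).2 ≤ (V y).card := card_le_card (filter_subset _ _)
      omega
  · intro y hy z hz h
    rw [mem_coe] at hy hz
    simp only [Prod.mk.injEq] at h
    obtain ⟨h1, h2⟩ := h
    have hqp : V z = shift (g (V y) - g (V z)) (V y) := by
      have : shift (-(g (V z))) (shift (g (V y)) (V y)) =
          shift (-(g (V z))) (shift (g (V z)) (V z)) := by rw [h1]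
      rw [shift_shift, shift_shift] at this
      rw [show g (V z) + -(g (V z)) = 0 by abel, shift_zero] at this
      rw [sub_eq_add_neg]
      exact this.symm
    obtain ⟨a1, a2, a3, a4⟩ := hmem y hy
    obtain ⟨b1, b2, b3, b4⟩ := hmem z hz
    obtain ⟨k1, k2, k3⟩ := gl_inj a2 a3 b2 b3 (hGl y hy).2 (hGl z hz).2 hqp h2
    have k4 : y.2.2 = z.2.2 := by
      rw [← (hGl y hy).1, ← (hGl z hz).1, k3]
    have k5 : y.1.1 = z.1.1 := by
      rw [← (mem_Tm.1 a2).1, ← (mem_Tm.1 b2).1, k1]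
    have k6 : y.1.2 = z.1.2 := by
      rw [← (mem_Tm.1 a3).1, ← (mem_Tm.1 b3).1, k2]
    obtain ⟨⟨y1, y2⟩, ⟨⟨y3, y4⟩, y5⟩⟩ := y
    obtain ⟨⟨z1, z2⟩, ⟨⟨z3, z4⟩, z5⟩⟩ := z
    simp only at k1 k2 k4 k5 k6
    subst k1 k2 k4 k5 k6
    rfl

/-- transposition -/
def tr (P : Finset Cell) : Finset Cell := P.map (Equiv.prodComm ℤ ℤ).toEmbedding

lemma mem_tr {P : Finset Cell} {c : Cell} : c ∈ tr P ↔ c.swap ∈ P := by
  unfold tr
  simp only [mem_map, Equiv.coe_toEmbedding, Equiv.prodComm_apply]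
  constructor
  · rintro ⟨a, ha, rfl⟩
    simpa using ha
  · intro h
    exact ⟨c.swap, h, by simp⟩

lemma adj_swap {c d : Cell} (h : Adj c d) : Adj c.swap d.swap := by
  unfold Adj at *
  simp only [Prod.fst_swap, Prod.snd_swap]
  tauto

lemma conn_tr {P : Finset Cell} (h : Conn P) : Conn (tr P) := by
  obtain ⟨r, hr⟩ := h.1
  apply conn_of_root (r := r.swap) (mem_tr.2 (by simpa using hr))
  intro b hb
  rw [mem_tr] at hb
  have key : ∀ z, Relation.ReflTransGen (fun c d => Adj c d ∧ c ∈ P ∧ d ∈ P) r z →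
      Relation.ReflTransGen (fun c d => Adj c d ∧ c ∈ tr P ∧ d ∈ tr P) r.swap z.swap := by
    intro z h
    induction h with
    | refl => exact Relation.ReflTransGen.refl
    | @tail c d _ hcd ih =>
      refine ih.tail ⟨adj_swap hcd.1, mem_tr.2 ?_, mem_tr.2 ?_⟩
      · simpa using hcd.2.1
      · simpa using hcd.2.2
  have := key _ (h.2 r hr _ hb)
  simpa using this

lemma card_tr (P : Finset Cell) : (tr P).card = P.card := by simp [tr]

lemma rws_shift_tr (v : Cell) (P : Finset Cell) : rws (shift v (tr P)) = cls P := by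
  unfold rws cls
  have : (shift v (tr P)).image Prod.snd = (P.image Prod.fst).image (fun x => x + v.2) := by
    ext y
    simp only [mem_image, mem_shift, mem_tr]
    constructor
    · rintro ⟨a, ha, rfl⟩
      exact ⟨(a - v).swap.1, ⟨_, ha, rfl⟩, by simp⟩
    · rintro ⟨_, ⟨a, ha, rfl⟩, rfl⟩
      refine ⟨a.swap + v, ?_, by simp⟩
      simpa using ha
  rw [this, card_image_of_injective _ (add_left_injective _)]

lemma sum_cls_le (n : ℕ) : ∑ P ∈ Tm n, cls P ≤ ∑ P ∈ Tm n, rws P := by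
  classical
  have hg : ∀ P ∈ Tm n, ∃ v, shift v (tr P) ∈ Tm n := by
    intro P hP
    have := exists_canon (conn_tr (mem_Tm.1 hP).2.1)
    rwa [card_tr, (mem_Tm.1 hP).1] at this
  choose! g hg using hg
  have hinj : Set.InjOn (fun P => shift (g P) (tr P)) (Tm n : Set (Finset Cell)) := by
    intro P hP Q hQ h
    rw [mem_coe] at hP hQ
    simp only at h
    have h1 : tr Q = shift (g P - g Q) (tr P) := by
      have : shift (-(g Q)) (shift (g P) (tr P)) = shift (-(g Q)) (shift (g Q) (tr Q)) := by rw [h]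
      rw [shift_shift, shift_shift] at this
      rw [show g Q + -(g Q) = 0 by abel, shift_zero] at this
      rw [sub_eq_add_neg]
      exact this.symm
    have h2 : Q = shift (g P - g Q).swap P := by
      ext c
      have := congrArg (fun X => c.swap ∈ X) h1
      simp only [mem_tr, mem_shift, Prod.swap_swap, eq_iff_iff] at this
      rw [this, mem_shift]
      have e : (c.swap - (g P - g Q)).swap = c - (g P - g Q).swap := by
        ext <;> simp
      rw [e]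
    exact Tm_eq_of_shift hP hQ h2
  calc ∑ P ∈ Tm n, cls P = ∑ P ∈ Tm n, rws (shift (g P) (tr P)) :=
        sum_congr rfl (fun P _ => (rws_shift_tr _ _).symm)
    _ = ∑ R ∈ (Tm n).image (fun P => shift (g P) (tr P)), rws R := by
        rw [sum_image hinj]
    _ ≤ ∑ P ∈ Tm n, rws P := by
        apply sum_le_sum_of_subset
        intro R hR
        rw [mem_image] at hR
        obtain ⟨P, hP, rfl⟩ := hR
        exact hg P hP

lemma card_le_mul (P : Finset Cell) : P.card ≤ cls P * rws P := by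
  unfold cls rws
  rw [← card_product]
  apply card_le_card
  intro c hc
  rw [mem_product]
  exact ⟨mem_image_of_mem _ hc, mem_image_of_mem _ hc⟩

lemma heights {K n : ℕ} (h : K * K ≤ n) : K * t n ≤ 2 * ∑ P ∈ Tm n, rws P := by
  have h1 : ∀ P ∈ Tm n, K ≤ cls P + rws P := by
    intro P hP
    by_contra hcon
    push Not at hcon
    have h2 := card_le_mul P
    rw [(mem_Tm.1 hP).1] at h2
    have h3 : cls P * rws P < K * K := by
      have a1 : cls P < K := by omega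
      have a2 : rws P < K := by omega
      nlinarith
    omega
  have h2 : K * t n ≤ ∑ P ∈ Tm n, (cls P + rws P) := by
    rw [t_eq, mul_comm, ← smul_eq_mul, ← sum_const]
    exact sum_le_sum h1
  rw [sum_add_distrib] at h2
  have h3 := sum_cls_le n
  omega

theorem main_ineq (K N : ℕ) :
    K * ∑ p ∈ (HasAntidiagonal.antidiagonal N).filter (fun p => K * K ≤ p.1), t p.1 * t p.2 ≤
      2 * ((N + 2) * t (N + 1)) := by
  refine le_trans ?_ (Nat.mul_le_mul_left 2 (count N))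
  rw [mul_sum, mul_sum]
  refine le_trans ?_ (sum_le_sum_of_subset (filter_subset (fun p => K * K ≤ p.1) _))
  refine sum_le_sum (fun p hp => ?_)
  rw [mem_filter] at hp
  have h1 := heights hp.2
  have h2 : (∑ P ∈ Tm p.1, rws P) * t p.2 ≤ ∑ x ∈ Tm p.1 ×ˢ Tm p.2, (S x.1 x.2).card := by
    rw [sum_product, sum_mul]
    refine sum_le_sum (fun P hP => ?_)
    rw [t_eq p.2, mul_comm, ← smul_eq_mul, ← sum_const]
    exact sum_le_sum (fun Q hQ => rws_le P (mem_Tm.1 hQ).2.1.1)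
  calc K * (t p.1 * t p.2) = (K * t p.1) * t p.2 := by ring
    _ ≤ (2 * ∑ P ∈ Tm p.1, rws P) * t p.2 := Nat.mul_le_mul_right _ h1
    _ = 2 * ((∑ P ∈ Tm p.1, rws P) * t p.2) := by ring
    _ ≤ 2 * ∑ x ∈ Tm p.1 ×ˢ Tm p.2, (S x.1 x.2).card := Nat.mul_le_mul_left _ h2

end Pool.Agent.U954.PO
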