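import Pool.Agent.N789.Kl.Growth

/-!
Gluing two polyominoes with one cell, after one of them has been moved to the left as far as possible.
-/

set_option autoImplicit false

namespace Pool.Agent.U954.PO

open Pool.Agent.N789.Kl Relation

/-- two sets have equal or adjacent cells -/
def Touch (A B : Finset Cell) : Prop := ∃ a ∈ A, ∃ b ∈ B, a = b ∨ Adj a b

lemma tm_shift {n m : ℕ} {P Q : Finset Cell} {v : Cell} (hP : P ∈ Tm n) (hQ : Q ∈ Tm m)
    (h : Q = shift v P) : v = 0 ∧ P = Q := by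
  have h1 : lle v 0 := (mem_Tm.1 hQ).2.2.2 v (by
    rw [h, mem_shift]
    simpa using (mem_Tm.1 hP).2.2.1)
  have h2 : lle (-v) 0 := (mem_Tm.1 hP).2.2.2 (-v) (by
    have := (mem_Tm.1 hQ).2.2.1
    rw [h, mem_shift] at this
    simpa using this)
  have h3 : v = 0 := by
    rw [lle_iff] at h1 h2
    simp at h1 h2
    ext <;> simp <;> omega
  subst h3
  rw [shift_zero] at h
  exact ⟨rfl, h.symm⟩

lemma sub_of_closed {A B E : Finset Cell} (hA : Conn A) (hAE : A ⊆ E)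
    (hB : ∀ x ∈ B, ∀ y ∈ E, Adj x y → y ∈ B) {x : Cell} (hxA : x ∈ A) (hxB : x ∈ B) : A ⊆ B := by
  intro y hy
  have key : ∀ z, ReflTransGen (fun c d => Adj c d ∧ c ∈ A ∧ d ∈ A) x z → z ∈ B := by
    intro z h
    induction h with
    | refl => exact hxB
    | tail _ hcd ih => exact hB _ ih _ (hAE hcd.2.2) hcd.1
  exact key y (hA.2 x hxA y hy)

/-- `P`, the cell `c` and the translate of `Q` by `w` are glued -/
structure Gl (P Q : Finset Cell) (w c : Cell) : Prop where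
  notP : c ∉ P
  notQ : c ∉ shift w Q
  left : c - (1, 0) ∈ P
  adj : ∃ q ∈ shift w Q, Adj c q
  sep : ¬ Touch P (shift w Q)

/-- the glued set -/
def gl (P Q : Finset Cell) (w c : Cell) : Finset Cell := insert c (P ∪ shift w Q)

lemma exists_gl {P Q : Finset Cell} (hP : P.Nonempty) (hQ : Q.Nonempty) {s : ℤ}
    (hs : ∃ p ∈ P, ∃ q ∈ Q, s = p.2 - q.2) : ∃ w c : Cell, w.2 = s ∧ Gl P Q w c := by
  obtain ⟨pm, hpm, hpm'⟩ := Finset.exists_max_image P (fun c => c.1) hP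
  obtain ⟨qm, hqm, hqm'⟩ := Finset.exists_min_image Q (fun c => c.1) hQ
  obtain ⟨u, ⟨a, ha, b, hb, hab⟩, hmax⟩ := Int.exists_greatest_of_bdd
    (P := fun u => Touch P (shift (u, s) Q)) (by
      refine ⟨pm.1 + 1 - qm.1, ?_⟩
      rintro u ⟨a, ha, b, hb, hab⟩
      rw [mem_shift] at hb
      have h1 := hpm' a ha
      have h2 := hqm' _ hb
      simp only [Prod.fst_sub] at h2
      rcases hab with rfl | hab
      · omega
      · unfold Adj at hab
        omega) (by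
      obtain ⟨p, hp, q, hq, hs⟩ := hs
      refine ⟨p.1 - q.1, p, hp, p, ?_, Or.inl rfl⟩
      rw [mem_shift]
      have : p - (p.1 - q.1, s) = q := by
        ext
        · simp
        · simp [hs]
      rw [this]
      exact hq)
  have hsep : ¬ Touch P (shift (u + 1, s) Q) := by
    intro h
    have := hmax _ h
    omega
  have hb' : b + (1, 0) ∈ shift (u + 1, s) Q := by
    rw [mem_shift] at hb ⊢
    have : b + (1, 0) - (u + 1, s) = b - (u, s) := by
      ext
      · simp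
      · simp
    rw [this]
    exact hb
  have hadj : Adj (a + (1, 0)) (b + (1, 0)) := by
    rcases hab with rfl | hab
    · exfalso
      apply hsep
      refine ⟨a, ha, _, hb', Or.inr ?_⟩
      unfold Adj
      simp
    · by_cases h1 : a.1 = b.1 + 1 ∧ a.2 = b.2
      · exfalso
        apply hsep
        refine ⟨a, ha, _, hb', Or.inl ?_⟩
        ext
        · simp [h1.1]
        · simp [h1.2]
      · unfold Adj at hab ⊢
        simp only [Prod.fst_add, Prod.snd_add]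
        omega
  have hca : Adj a (a + (1, 0)) := by
    unfold Adj
    simp
  refine ⟨(u + 1, s), a + (1, 0), rfl, ?_, ?_, ?_, ⟨_, hb', hadj⟩, hsep⟩
  · intro h
    exact hsep ⟨_, h, _, hb', Or.inr hadj⟩
  · intro h
    exact hsep ⟨_, ha, _, h, Or.inr hca⟩
  · simpa using ha

lemma Gl.disj {P Q : Finset Cell} {w c : Cell} (h : Gl P Q w c) : Disjoint P (shift w Q) := by
  rw [Finset.disjoint_left]
  intro x hx hy
  exact h.sep ⟨x, hx, x, hy, Or.inl rfl⟩

lemma Gl.card {P Q : Finset Cell} {w c : Cell} (h : Gl P Q w c) :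
    (gl P Q w c).card = P.card + Q.card + 1 := by
  unfold gl
  rw [Finset.card_insert_of_notMem, Finset.card_union_of_disjoint h.disj, card_shift]
  rw [Finset.mem_union]
  rintro (h1 | h1)
  · exact h.notP h1
  · exact h.notQ h1

lemma Gl.conn {P Q : Finset Cell} {w c : Cell} (h : Gl P Q w c) (hP : Conn P) (hQ : Conn Q) :
    Conn (gl P Q w c) := by
  have h1 : Conn ({c} : Finset Cell) := by
    apply conn_of_root (r := c) (by simp)
    intro b hb
    rw [Finset.mem_singleton] at hb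
    rw [hb]
  have h2 : Conn (P ∪ {c}) := conn_union hP h1 (b := c) h.left (by simp) (by unfold Adj; simp)
  obtain ⟨q, hq, hcq⟩ := h.adj
  have h3 : Conn (P ∪ {c} ∪ shift w Q) := conn_union h2 (conn_shift hQ w) (a := c) (by simp) hq hcq
  have e : gl P Q w c = P ∪ {c} ∪ shift w Q := by
    unfold gl
    ext x
    simp only [Finset.mem_insert, Finset.mem_union, Finset.mem_singleton]
    tauto
  rw [e]
  exact h3

lemma Gl.erase {P Q : Finset Cell} {w c : Cell} (h : Gl P Q w c) :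
    (gl P Q w c).erase c = P ∪ shift w Q := by
  unfold gl
  rw [Finset.erase_insert]
  rw [Finset.mem_union]
  rintro (h1 | h1)
  · exact h.notP h1
  · exact h.notQ h1

lemma Gl.closed {P Q : Finset Cell} {w c : Cell} (h : Gl P Q w c) :
    ∀ x ∈ P, ∀ y ∈ P ∪ shift w Q, Adj x y → y ∈ P := by
  intro x hx y hy hxy
  rcases Finset.mem_union.1 hy with hy | hy
  · exact hy
  · exact absurd ⟨x, hx, y, hy, Or.inr hxy⟩ h.sep

lemma gl_inj {n₁ m₁ n₂ m₂ : ℕ} {P₁ Q₁ P₂ Q₂ : Finset Cell} {w₁ c₁ w₂ c₂ v : Cell}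
    (hP₁ : P₁ ∈ Tm n₁) (hQ₁ : Q₁ ∈ Tm m₁) (hP₂ : P₂ ∈ Tm n₂) (hQ₂ : Q₂ ∈ Tm m₂)
    (h₁ : Gl P₁ Q₁ w₁ c₁) (h₂ : Gl P₂ Q₂ w₂ c₂) (hv : gl P₂ Q₂ w₂ c₂ = shift v (gl P₁ Q₁ w₁ c₁))
    (hr : rk (gl P₁ Q₁ w₁ c₁) c₁ = rk (gl P₂ Q₂ w₂ c₂) c₂) : P₁ = P₂ ∧ Q₁ = Q₂ ∧ w₁ = w₂ := by
  have hc₁ : c₁ ∈ gl P₁ Q₁ w₁ c₁ := by unfold gl; simp
  have hc₂ : c₂ ∈ gl P₂ Q₂ w₂ c₂ := by unfold gl; simp
  have hc : c₁ + v = c₂ := by
    apply rk_inj (P := gl P₂ Q₂ w₂ c₂)
    · rw [hv, mem_shift]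
      simpa using hc₁
    · exact hc₂
    · rw [hv, rk_shift, hr, ← hv]
  have hE : P₂ ∪ shift w₂ Q₂ = shift v (P₁ ∪ shift w₁ Q₁) := by
    rw [← h₁.erase, ← h₂.erase, hv, ← hc]
    ext x
    simp only [Finset.mem_erase, mem_shift, ne_eq]
    constructor
    · rintro ⟨g1, g2⟩
      exact ⟨fun g => g1 (by rw [← g]; simp), g2⟩
    · rintro ⟨g1, g2⟩
      exact ⟨fun g => g1 (by rw [g]; simp), g2⟩
  have hPP : P₂ = shift v P₁ := by
    have hmem : c₂ - (1, 0) ∈ shift v P₁ := by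
      rw [mem_shift, ← hc]
      have : c₁ + v - (1, 0) - v = c₁ - (1, 0) := by abel
      rw [this]
      exact h₁.left
    apply Finset.Subset.antisymm
    · apply sub_of_closed (mem_Tm.1 hP₂).2.1 (E := P₂ ∪ shift w₂ Q₂) Finset.subset_union_left ?_
        h₂.left hmem
      intro x hx y hy hxy
      rw [hE, mem_shift] at hy
      rw [mem_shift] at hx ⊢
      refine h₁.closed _ hx _ hy ?_
      have := adj_add (v := -v) hxy
      simpa [sub_eq_add_neg] using this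
    · apply sub_of_closed (conn_shift (mem_Tm.1 hP₁).2.1 v) (E := P₂ ∪ shift w₂ Q₂) ?_
        h₂.closed hmem h₂.left
      rw [hE, shift_union]
      exact Finset.subset_union_left
  obtain ⟨hv0, hP⟩ := tm_shift hP₁ hP₂ hPP
  subst hv0
  rw [shift_zero] at hE
  subst hP
  have hQQ : shift w₂ Q₂ = shift w₁ Q₁ := by
    have e1 : shift w₂ Q₂ = (P₁ ∪ shift w₂ Q₂) \ P₁ := by
      rw [Finset.union_sdiff_left, Finset.sdiff_eq_self_of_disjoint h₂.disj.symm]
    have e2 : shift w₁ Q₁ = (P₁ ∪ shift w₁ Q₁) \ P₁ := by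
      rw [Finset.union_sdiff_left, Finset.sdiff_eq_self_of_disjoint h₁.disj.symm]
    rw [e1, e2, hE]
  have hQ : Q₂ = shift (w₁ - w₂) Q₁ := by
    have : shift (-w₂) (shift w₂ Q₂) = shift (-w₂) (shift w₁ Q₁) := by rw [hQQ]
    rw [shift_shift, shift_shift] at this
    rw [show w₂ + -w₂ = 0 by abel, shift_zero] at this
    rw [sub_eq_add_neg]
    exact this
  obtain ⟨hw, hQ'⟩ := tm_shift hQ₁ hQ₂ hQ
  exact ⟨rfl, hQ', sub_eq_zero.1 hw⟩

end Pool.Agent.U954.PO
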