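import Pool.Agent.U954.PO.Ces

/-!
The pointwise bound `t(n) ^ 2 * √n ≤ C * lam ^ (2 n)`.
-/

set_option autoImplicit false

namespace Pool.Agent.U954.PO

open Pool.Agent.N789.Kl Finset

lemma Gl.closed' {P Q : Finset Cell} {w c : Cell} (h : Gl P Q w c) :
    ∀ x ∈ shift w Q, ∀ y ∈ P ∪ shift w Q, Adj x y → y ∈ shift w Q := by
  intro x hx y hy hxy
  rcases Finset.mem_union.1 hy with hy | hy
  · exact absurd ⟨y, hy, x, hx, Or.inr hxy.symm⟩ h.sep
  · exact hy

/-- a connected subset of the glued set which avoids the middle cell lies in one part -/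
lemma Gl.part {P Q A : Finset Cell} {w c : Cell} (h : Gl P Q w c) (hA : Conn A)
    (hAV : A ⊆ gl P Q w c) (hc : c ∉ A) : A ⊆ P ∨ A ⊆ shift w Q := by
  have hAE : A ⊆ P ∪ shift w Q := by
    intro x hx
    have h1 := hAV hx
    unfold gl at h1
    rcases Finset.mem_insert.1 h1 with h2 | h2
    · exact absurd (h2 ▸ hx) hc
    · exact h2
  obtain ⟨a, ha⟩ := hA.1
  rcases Finset.mem_union.1 (hAE ha) with h1 | h1
  · exact Or.inl (sub_of_closed hA hAE h.closed ha h1)
  · exact Or.inr (sub_of_closed hA hAE h.closed' ha h1)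

lemma center {n : ℕ} {P₁ Q₁ P₂ Q₂ : Finset Cell} {w₁ c₁ w₂ c₂ v : Cell}
    (hP₁ : P₁.card = n) (hQ₁ : Q₁.card = n) (hP₂ : P₂.card = n) (hQ₂ : Q₂.card = n)
    (cP₂ : Conn P₂) (cQ₂ : Conn Q₂) (h₁ : Gl P₁ Q₁ w₁ c₁) (h₂ : Gl P₂ Q₂ w₂ c₂)
    (hV : gl P₂ Q₂ w₂ c₂ = shift v (gl P₁ Q₁ w₁ c₁)) : c₁ + v = c₂ := by
  have key : ∀ A : Finset Cell, Conn A → A ⊆ gl P₂ Q₂ w₂ c₂ → A.card = n + 1 → c₁ + v ∈ A := by
    intro A hA hAV hc
    by_contra hcon
    have h3 : shift (-v) A ⊆ gl P₁ Q₁ w₁ c₁ := by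
      intro x hx
      rw [mem_shift] at hx
      have h4 := hAV hx
      rw [hV, mem_shift] at h4
      simpa using h4
    have h4 : c₁ ∉ shift (-v) A := by
      rw [mem_shift]
      simpa using hcon
    have h5 : (shift (-v) A).card = n + 1 := by rw [card_shift, hc]
    rcases h₁.part (conn_shift hA (-v)) h3 h4 with h6 | h6
    · have := card_le_card h6
      omega
    · have := card_le_card h6
      rw [card_shift w₁ Q₁] at this
      omega
  have h1 : Conn ({c₂} : Finset Cell) := by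
    apply conn_of_root (r := c₂) (by simp)
    intro b hb
    rw [Finset.mem_singleton] at hb
    rw [hb]
  have hl : Conn (P₂ ∪ {c₂}) :=
    conn_union cP₂ h1 (b := c₂) h₂.left (by simp) (by unfold Adj; simp)
  obtain ⟨q, hq, hcq⟩ := h₂.adj
  have hr : Conn ({c₂} ∪ shift w₂ Q₂) :=
    conn_union h1 (conn_shift cQ₂ w₂) (a := c₂) (by simp) hq hcq
  have k1 := key _ hl (by
    intro x hx
    unfold gl
    simp only [mem_union, mem_singleton, mem_insert] at hx ⊢
    tauto) (by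
    rw [card_union_of_disjoint (by simpa using h₂.notP), card_singleton, hP₂])
  have k2 := key _ hr (by
    intro x hx
    unfold gl
    simp only [mem_union, mem_singleton, mem_insert] at hx ⊢
    tauto) (by
    rw [card_union_of_disjoint (by simpa using h₂.notQ), card_singleton, card_shift, hQ₂, add_comm])
  rw [mem_union, mem_singleton] at k1 k2
  rcases k1 with k1 | k1
  · rcases k2 with k2 | k2
    · exact k2
    · exact absurd (Finset.disjoint_left.1 h₂.disj k1 k2) (by simp)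
  · exact k1

theorem count_eq (n : ℕ) : ∑ x ∈ Tm n ×ˢ Tm n, (S x.1 x.2).card ≤ t (2 * n + 1) := by
  classical
  have hc : ∀ (P Q : Finset Cell) (s : ℤ), P.Nonempty ∧ Q.Nonempty ∧ s ∈ S P Q →
      ∃ wc : Cell × Cell, wc.1.2 = s ∧ Gl P Q wc.1 wc.2 := by
    rintro P Q s ⟨hP, hQ, hs⟩
    obtain ⟨w, c, h1, h2⟩ := exists_gl hP hQ (mem_S.1 hs)
    exact ⟨(w, c), h1, h2⟩
  choose! f hf1 hf2 using hc
  have hg : ∀ V : Finset Cell, Conn V → ∃ v, shift v V ∈ Tm V.card := fun V hV => exists_canon hV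
  choose! g hg using hg
  set X : Finset (Σ _ : Finset Cell × Finset Cell, ℤ) :=
    (Tm n ×ˢ Tm n).sigma (fun x => S x.1 x.2) with hX
  have hcard : X.card = ∑ x ∈ Tm n ×ˢ Tm n, (S x.1 x.2).card := by
    rw [hX, card_sigma]
  rw [← hcard]
  have hmem : ∀ y ∈ X, y.1.1 ∈ Tm n ∧ y.1.2 ∈ Tm n ∧ y.2 ∈ S y.1.1 y.1.2 := by
    intro y hy
    rw [hX, mem_sigma, mem_product] at hy
    exact ⟨hy.1.1, hy.1.2, hy.2⟩
  set V : (Σ _ : Finset Cell × Finset Cell, ℤ) → Finset Cell := fun y =>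
    gl y.1.1 y.1.2 (f y.1.1 y.1.2 y.2).1 (f y.1.1 y.1.2 y.2).2 with hV
  have hGl : ∀ y ∈ X, (f y.1.1 y.1.2 y.2).1.2 = y.2 ∧
      Gl y.1.1 y.1.2 (f y.1.1 y.1.2 y.2).1 (f y.1.1 y.1.2 y.2).2 := by
    intro y hy
    obtain ⟨h2, h3, h4⟩ := hmem y hy
    have h5 : y.1.1.Nonempty ∧ y.1.2.Nonempty ∧ y.2 ∈ S y.1.1 y.1.2 :=
      ⟨(mem_Tm.1 h2).2.1.1, (mem_Tm.1 h3).2.1.1, h4⟩
    exact ⟨hf1 _ _ _ h5, hf2 _ _ _ h5⟩
  have hVc : ∀ y ∈ X, (V y).card = 2 * n + 1 ∧ Conn (V y) := by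
    intro y hy
    obtain ⟨h2, h3, h4⟩ := hmem y hy
    have h5 := (hGl y hy).2
    refine ⟨?_, h5.conn (mem_Tm.1 h2).2.1 (mem_Tm.1 h3).2.1⟩
    have h6 := h5.card
    rw [(mem_Tm.1 h2).1, (mem_Tm.1 h3).1] at h6
    rw [two_mul]
    exact h6
  rw [t_eq]
  apply card_le_card_of_injOn (fun y => shift (g (V y)) (V y))
  · intro y hy
    rw [mem_coe] at hy
    rw [mem_coe]
    obtain ⟨h1, h2⟩ := hVc y hy
    have := hg _ h2
    rwa [h1] at this
  · intro y hy z hz h1
    rw [mem_coe] at hy hz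
    simp only at h1
    have hqp : V z = shift (g (V y) - g (V z)) (V y) := by
      have : shift (-(g (V z))) (shift (g (V y)) (V y)) =
          shift (-(g (V z))) (shift (g (V z)) (V z)) := by rw [h1]
      rw [shift_shift, shift_shift] at this
      rw [show g (V z) + -(g (V z)) = 0 by abel, shift_zero] at this
      rw [sub_eq_add_neg]
      exact this.symm
    obtain ⟨a2, a3, a4⟩ := hmem y hy
    obtain ⟨b2, b3, b4⟩ := hmem z hz
    have hcc := center (mem_Tm.1 a2).1 (mem_Tm.1 a3).1 (mem_Tm.1 b2).1 (mem_Tm.1 b3).1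
      (mem_Tm.1 b2).2.1 (mem_Tm.1 b3).2.1 (hGl y hy).2 (hGl z hz).2 hqp
    have h2 : rk (V y) (f y.1.1 y.1.2 y.2).2 = rk (V z) (f z.1.1 z.1.2 z.2).2 := by
      rw [hqp, ← hcc, rk_shift]
    obtain ⟨k1, k2, k3⟩ := gl_inj a2 a3 b2 b3 (hGl y hy).2 (hGl z hz).2 hqp h2
    have k4 : y.2 = z.2 := by
      rw [← (hGl y hy).1, ← (hGl z hz).1, k3]
    obtain ⟨⟨y3, y4⟩, y5⟩ := y
    obtain ⟨⟨z3, z4⟩, z5⟩ := z
    simp only at k1 k2 k4
    subst k1 k2 k4
    rfl

theorem madras {K n : ℕ} (h : K * K ≤ n) : K * (t n * t n) ≤ 2 * t (2 * n + 1) := by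
  refine le_trans ?_ (Nat.mul_le_mul_left 2 (count_eq n))
  have h1 := heights h
  have h2 : (∑ P ∈ Tm n, rws P) * t n ≤ ∑ x ∈ Tm n ×ˢ Tm n, (S x.1 x.2).card := by
    rw [sum_product, sum_mul]
    refine sum_le_sum (fun P hP => ?_)
    rw [t_eq n, mul_comm, ← smul_eq_mul, ← sum_const]
    exact sum_le_sum (fun Q hQ => rws_le P (mem_Tm.1 hQ).2.1.1)
  calc K * (t n * t n) = (K * t n) * t n := by ring
    _ ≤ (2 * ∑ P ∈ Tm n, rws P) * t n := Nat.mul_le_mul_right _ h1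
    _ = 2 * ((∑ P ∈ Tm n, rws P) * t n) := by ring
    _ ≤ 2 * ∑ x ∈ Tm n ×ˢ Tm n, (S x.1 x.2).card := Nat.mul_le_mul_left _ h2

theorem aa_bound' {n : ℕ} (hn : 1 ≤ n) : aa n ^ 2 * Real.sqrt n ≤ 4 * lam * aa (2 * n + 1) := by
  have hl := lam_pos
  set K := Nat.sqrt n with hK
  have h1 := madras (K := K) (n := n) (Nat.sqrt_le n)
  have h2 : ((K * (t n * t n) : ℕ) : ℝ) ≤ ((2 * t (2 * n + 1) : ℕ) : ℝ) := by exact_mod_cast h1
  push_cast at h2
  have h4 : (K : ℝ) * aa n ^ 2 ≤ 2 * lam * aa (2 * n + 1) := by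
    rw [t_eq_aa n, t_eq_aa (2 * n + 1)] at h2
    have h5 : lam ^ (2 * n) * ((K : ℝ) * aa n ^ 2) ≤ lam ^ (2 * n) * (2 * lam * aa (2 * n + 1)) := by
      calc lam ^ (2 * n) * ((K : ℝ) * aa n ^ 2) = (K : ℝ) * (aa n * lam ^ n * (aa n * lam ^ n)) := by
            rw [two_mul, pow_add]; ring
        _ ≤ 2 * (aa (2 * n + 1) * lam ^ (2 * n + 1)) := h2
        _ = lam ^ (2 * n) * (2 * lam * aa (2 * n + 1)) := by rw [pow_succ]; ring
    exact le_of_mul_le_mul_left h5 (by positivity)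
  have h5 : Real.sqrt n ≤ 2 * K := by
    rw [Real.sqrt_le_left (by positivity)]
    have h6 : n < (K + 1) * (K + 1) := Nat.lt_succ_sqrt n
    have h7 : 1 ≤ K := by
      rw [hK, Nat.one_le_iff_ne_zero]
      intro h8
      rw [Nat.sqrt_eq_zero] at h8
      omega
    have h8 : (n : ℝ) ≤ ((K : ℝ) + 1) * (K + 1) := by exact_mod_cast h6.le
    have h9 : (1 : ℝ) ≤ K := by exact_mod_cast h7
    nlinarith
  have h6 : 0 ≤ aa n ^ 2 := by positivity
  nlinarith

theorem aa_bound {n : ℕ} (hn : 1 ≤ n) : aa n ^ 2 * Real.sqrt n ≤ 4 * lam := by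
  have hl := lam_pos
  have h1 := aa_bound' hn
  have h2 := aa_le_one (2 * n + 1)
  nlinarith

lemma aa_mul (m n : ℕ) : aa m * aa n ≤ aa (m + n) := by
  have hl := lam_pos
  have h1 : ((t m * t n : ℕ) : ℝ) ≤ (t (m + n) : ℝ) := by exact_mod_cast t_mul_le m n
  push_cast at h1
  unfold aa
  rw [div_mul_div_comm, ← pow_add]
  gcongr

lemma aa_pow {n : ℕ} (h : aa n = 1) (k : ℕ) : aa ((k + 1) * n) = 1 := by
  induction k with
  | zero => simpa using h
  | succ k ih =>
    apply le_antisymm (aa_le_one _)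
    have h1 := aa_mul ((k + 1) * n) n
    rw [ih, h] at h1
    rw [show (k + 1 + 1) * n = (k + 1) * n + n by ring]
    linarith

lemma aa_pos {n : ℕ} (hn : 1 ≤ n) : 0 < aa n := by
  have hl := lam_pos
  have := t_pos hn
  unfold aa
  positivity

lemma aa_lt_one {n : ℕ} (hn : 1 ≤ n) : aa n < 1 := by
  refine lt_of_le_of_ne (aa_le_one n) (fun h => ?_)
  have hl := lam_pos
  obtain ⟨k, hk⟩ := exists_nat_gt ((4 * lam) ^ 2)
  have h1 := aa_pow h k
  have h2 := aa_bound (n := (k + 1) * n) (Nat.succ_le_of_lt (by positivity))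
  rw [h1] at h2
  have h3 : (4 * lam) ^ 2 < (((k + 1) * n : ℕ) : ℝ) := by
    refine hk.trans_le ?_
    have h4 : k ≤ (k + 1) * n := by nlinarith
    exact_mod_cast h4
  have h4 := Real.lt_sqrt_of_sq_lt h3
  linarith

/-- `-log (t(n) / lam^n) ≥ c log n` -/
theorem la_upper : ∃ c : ℝ, 0 < c ∧ ∀ n : ℕ, 2 ≤ n → Real.log (aa n) ≤ -(c * Real.log n) := by
  have hl := lam_pos
  have h1l := one_le_lam
  obtain ⟨n0, hn0⟩ := exists_nat_gt (Real.exp (4 * Real.log (4 * lam)))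
  have hfin : ∀ N : ℕ, ∃ c : ℝ, 0 < c ∧ ∀ n < N, 2 ≤ n → Real.log (aa n) ≤ -(c * Real.log n) := by
    intro N
    induction N with
    | zero => exact ⟨1, one_pos, fun n hn => absurd hn (Nat.not_lt_zero n)⟩
    | succ N ih =>
      obtain ⟨c, hc, h⟩ := ih
      by_cases hN : 2 ≤ N
      · have hlogN : 0 < Real.log N := Real.log_pos (by exact_mod_cast hN)
        have h2 : Real.log (aa N) < 0 := Real.log_neg (aa_pos (by omega)) (aa_lt_one (by omega))
        refine ⟨min c (-Real.log (aa N) / Real.log N), lt_min hc (by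
          apply div_pos <;> linarith), fun n hn h2n => ?_⟩
        have hlogn : 0 < Real.log n := Real.log_pos (by exact_mod_cast h2n)
        rcases Nat.lt_succ_iff_lt_or_eq.1 hn with hn | rfl
        · refine (h n hn h2n).trans ?_
          have : min c (-Real.log (aa N) / Real.log N) ≤ c := min_le_left _ _
          nlinarith
        · have : min c (-Real.log (aa n) / Real.log n) ≤ -Real.log (aa n) / Real.log n :=
            min_le_right _ _
          have h3 : min c (-Real.log (aa n) / Real.log n) * Real.log n ≤ -Real.log (aa n) := by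
            rw [le_div_iff₀ hlogn] at this
            exact this
          linarith
      · exact ⟨c, hc, fun n hn h2n => h n (by omega) h2n⟩
  obtain ⟨c, hc, h⟩ := hfin n0
  refine ⟨min c (1 / 8), lt_min hc (by norm_num), fun n h2n => ?_⟩
  have hlogn : 0 < Real.log n := Real.log_pos (by exact_mod_cast h2n)
  rcases lt_or_ge n n0 with hn | hn
  · refine (h n hn h2n).trans ?_
    have : min c (1 / 8) ≤ c := min_le_left _ _
    nlinarith
  · have h3 : 4 * Real.log (4 * lam) ≤ Real.log n := by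
      rw [← Real.log_exp (4 * Real.log (4 * lam))]
      apply Real.log_le_log (Real.exp_pos _)
      refine hn0.le.trans ?_
      exact_mod_cast hn
    have hp := aa_pos (n := n) (by omega)
    have hn0' : (0 : ℝ) < n := by positivity
    have h4 := Real.log_le_log (by positivity) (aa_bound (n := n) (by omega))
    rw [Real.log_mul (by positivity) (by positivity), Real.log_pow, Real.log_sqrt hn0'.le] at h4
    have h5 : min c (1 / 8) ≤ 1 / 8 := min_le_right _ _
    push_cast at h4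
    nlinarith

end Pool.Agent.U954.PO
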