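import Pool.Agent.U954.PO.Quo

/-!
The generating function of fixed polyominoes has no meromorphic continuation to a larger disc.
-/

set_option autoImplicit false

namespace Pool.Agent.U954.PO

open Pool.Agent.N789.Kl Finset Filter Topology

lemma clear_poles {f : ℂ → ℂ} {K : Set ℂ} (hK : IsCompact K) (hf : MeromorphicOn f K) :
    ∃ Q : Polynomial ℂ, Q ≠ 0 ∧ ∀ w ∈ K, AnalyticAt ℂ (fun z => Q.eval z * f z) w := by
  have hpoly : ∀ (P : Polynomial ℂ) (w : ℂ), AnalyticAt ℂ (fun z => P.eval z) w := fun P w =>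
    (P.differentiable).analyticAt w
  refine hK.induction_on (p := fun S => ∃ Q : Polynomial ℂ, Q ≠ 0 ∧
    ∀ w ∈ S, AnalyticAt ℂ (fun z => Q.eval z * f z) w) ?_ ?_ ?_ ?_
  · exact ⟨1, one_ne_zero, fun w hw => absurd hw (Set.notMem_empty w)⟩
  · rintro S T hST ⟨Q, hQ, h⟩
    exact ⟨Q, hQ, fun w hw => h w (hST hw)⟩
  · rintro S T ⟨Q₁, hQ₁, h₁⟩ ⟨Q₂, hQ₂, h₂⟩
    refine ⟨Q₁ * Q₂, mul_ne_zero hQ₁ hQ₂, ?_⟩
    rintro w (hw | hw)
    · refine ((hpoly Q₂ w).mul (h₁ w hw)).congr (Eventually.of_forall fun z => ?_)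
      simp only [Pi.mul_apply, Polynomial.eval_mul]
      ring
    · refine ((hpoly Q₁ w).mul (h₂ w hw)).congr (Eventually.of_forall fun z => ?_)
      simp only [Pi.mul_apply, Polynomial.eval_mul]
      ring
  · intro x hx
    obtain ⟨n, hn⟩ := hf x hx
    refine ⟨{w | AnalyticAt ℂ (fun z => (z - x) ^ n • f z) w},
      mem_nhdsWithin_of_mem_nhds hn.eventually_analyticAt, (Polynomial.X - Polynomial.C x) ^ n,
      pow_ne_zero _ (Polynomial.X_sub_C_ne_zero x), fun w hw => ?_⟩
    simpa using hw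

lemma hasSum_mul (Q : Polynomial ℂ) {f : ℂ → ℂ}
    (hs : ∀ z : ℂ, ‖z‖ < 1 / lam → HasSum (fun n => (t n : ℂ) * z ^ n) (f z)) {z : ℂ}
    (hz : ‖z‖ < 1 / lam) :
    HasSum (fun n => PowerSeries.coeff n ((Q : PowerSeries ℂ) * TT) * z ^ n) (Q.eval z * f z) := by
  have hg := (hs z hz).summable.norm
  have hq0 : ∀ n ∉ range (Q.natDegree + 1), Q.coeff n * z ^ n = 0 := by
    intro n hn
    rw [mem_range] at hn
    rw [Polynomial.coeff_eq_zero_of_natDegree_lt (by omega), zero_mul]
  have hf : Summable (fun n => ‖Q.coeff n * z ^ n‖) := by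
    apply summable_of_ne_finset_zero (s := range (Q.natDegree + 1))
    intro n hn
    rw [hq0 n hn, norm_zero]
  have h1 : ∑' n, Q.coeff n * z ^ n = Q.eval z := by
    rw [tsum_eq_sum hq0, Polynomial.eval_eq_sum_range]
  have h2 := tsum_mul_tsum_eq_tsum_sum_antidiagonal_of_summable_norm hf hg
  have h3 := (summable_norm_sum_mul_antidiagonal_of_summable_norm hf hg).of_norm.hasSum
  rw [← h2, h1, (hs z hz).tsum_eq] at h3
  have e : (fun n => PowerSeries.coeff n ((Q : PowerSeries ℂ) * TT) * z ^ n) =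
      fun n => ∑ kl ∈ HasAntidiagonal.antidiagonal n,
        Q.coeff kl.1 * z ^ kl.1 * ((t kl.2 : ℂ) * z ^ kl.2) := by
    funext n
    rw [PowerSeries.coeff_mul, sum_mul]
    refine sum_congr rfl (fun p hp => ?_)
    rw [HasAntidiagonal.mem_antidiagonal] at hp
    rw [← hp, pow_add]
    simp only [Polynomial.coeff_coe, TT, PowerSeries.coeff_mk]
    ring
  rw [e]
  exact h3

theorem no_mero_closed (f : ℂ → ℂ) (hf : MeromorphicOn f (Metric.closedBall 0 (1 / lam)))
    (hs : ∀ z : ℂ, ‖z‖ < 1 / lam → HasSum (fun n => (t n : ℂ) * z ^ n) (f z)) : False := by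
  have hl := lam_pos
  have hl1 : 0 < 1 / lam := by positivity
  obtain ⟨Q, hQ, hA⟩ := clear_poles (isCompact_closedBall (0 : ℂ) (1 / lam)) hf
  set G : ℂ → ℂ := fun z => Q.eval z * f z with hG
  obtain ⟨δ, hδ, hsub⟩ := (isCompact_closedBall (0 : ℂ) (1 / lam)).exists_cthickening_subset_open
    (isOpen_analyticAt ℂ G) hA
  rw [cthickening_closedBall hδ.le hl1.le] at hsub
  obtain ⟨ρ, hρ⟩ : ∃ ρ, ρ = δ + 1 / lam := ⟨_, rfl⟩
  rw [← hρ] at hsub
  have hρ1 : 1 / lam < ρ := by linarith
  have hρ0 : 0 < ρ := by linarith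
  have hd : DifferentiableOn ℂ G (Metric.closedBall 0 ρ) := fun w hw => by
    have h : AnalyticAt ℂ G w := hsub hw
    exact h.differentiableAt.differentiableWithinAt
  obtain ⟨σ, hσ⟩ : ∃ σ : NNReal, (σ : ℝ) = ρ := ⟨⟨ρ, hρ0.le⟩, rfl⟩
  rw [← hσ] at hd
  have h1 := hd.hasFPowerSeriesOnBall (by
    rw [← NNReal.coe_pos, hσ]
    exact hρ0)
  set c : ℕ → ℂ := fun n => PowerSeries.coeff n ((Q : PowerSeries ℂ) * TT) with hc
  obtain ⟨r, hr⟩ : ∃ r : NNReal, (r : ℝ) = 1 / (2 * lam) := ⟨⟨1 / (2 * lam), by positivity⟩, rfl⟩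
  have hr0 : 0 < (r : ℝ) := by rw [hr]; positivity
  have hr1 : (r : ℝ) < 1 / lam := by
    rw [hr, div_lt_div_iff₀ (by positivity) hl]
    linarith
  have h2 : HasFPowerSeriesOnBall G (FormalMultilinearSeries.ofScalars ℂ c) 0 r := by
    refine ⟨?_, by exact_mod_cast hr0, ?_⟩
    · apply FormalMultilinearSeries.le_radius_of_summable
      have h3 := (hasSum_mul Q hs (z := ((r : ℝ) : ℂ)) (by
        rw [Complex.norm_real, Real.norm_eq_abs, abs_of_nonneg hr0.le]
        exact hr1)).summable.norm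
      refine h3.congr (fun n => ?_)
      rw [FormalMultilinearSeries.ofScalars_norm, norm_mul, norm_pow, Complex.norm_real,
        Real.norm_eq_abs, abs_of_nonneg hr0.le]
    · intro y hy
      have hy' : ‖y‖ < 1 / lam := by
        rw [Metric.mem_eball, edist_zero_right] at hy
        have : ‖y‖₊ < r := by exact_mod_cast hy
        exact lt_trans (by exact_mod_cast this) hr1
      have h3 := hasSum_mul Q hs hy'
      rw [zero_add]
      have e : (fun n : ℕ => (FormalMultilinearSeries.ofScalars ℂ c n) fun _ : Fin n => y) =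
          fun n => c n * y ^ n := by
        funext n
        rw [FormalMultilinearSeries.ofScalars_apply_eq, smul_eq_mul]
      rw [e]
      exact h3
  have h3 := h1.hasFPowerSeriesAt.eq_formalMultilinearSeries h2.hasFPowerSeriesAt
  refine not_small Q hQ ρ⁻¹ (by positivity) ?_
    ((2 * Real.pi)⁻¹ * ∫ θ : ℝ in 0..2 * Real.pi, ‖G (circleMap 0 σ θ)‖) (fun n => ?_)
  · rw [inv_lt_comm₀ hρ0 hl, ← one_div]
    exact hρ1
  · have h4 := norm_cauchyPowerSeries_le G 0 σ n
    rw [h3, FormalMultilinearSeries.ofScalars_norm, hσ, abs_of_pos hρ0] at h4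
    rw [hσ]
    exact h4

/-- no meromorphic continuation to a neighbourhood of `1 / lam` -/
theorem no_mero_at (D : Set ℂ) (g : ℂ → ℂ) (hD : IsOpen D)
    (hD1 : ∀ z : ℂ, lam * ‖z‖ = 1 → z ≠ ((1 / lam : ℝ) : ℂ) → z ∈ D)
    (hD2 : ∀ z : ℂ, lam * ‖z‖ < 1 → z ∈ D) (hg : DifferentiableOn ℂ g D)
    (hgs : ∀ z : ℂ, lam * ‖z‖ < 1 → HasSum (fun n => (t n : ℂ) * z ^ n) (g z))
    (f : ℂ → ℂ) (hf : MeromorphicAt f ((1 / lam : ℝ) : ℂ))
    (hfs : ∀ᶠ z in 𝓝 ((1 / lam : ℝ) : ℂ), lam * ‖z‖ < 1 → HasSum (fun n => (t n : ℂ) * z ^ n) (f z)) :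
    False := by
  classical
  have hl := lam_pos
  set p : ℂ := ((1 / lam : ℝ) : ℂ) with hp
  have hgA : ∀ w ∈ D, AnalyticAt ℂ g w := fun w hw => hg.analyticAt (hD.mem_nhds hw)
  have h1 : ∀ᶠ z in 𝓝 p, z ∈ ({p}ᶜ : Set ℂ) → AnalyticAt ℂ f z :=
    eventually_nhdsWithin_iff.1 hf.eventually_analyticAt
  obtain ⟨ε', hε', hball⟩ := Metric.eventually_nhds_iff_ball.1 (h1.and hfs)
  have hopen : IsOpen {z : ℂ | lam * ‖z‖ < 1} :=
    isOpen_lt (by fun_prop) continuous_const
  set F : ℂ → ℂ := fun z => if lam * ‖z‖ < 1 ∨ ε' / 2 ≤ ‖z - p‖ then g z else f z with hF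
  have hin : ∀ z, lam * ‖z‖ < 1 → F z = g z := by
    intro z hz
    simp only [hF]
    rw [if_pos (Or.inl hz)]
  have hfar : ∀ z, ε' / 2 ≤ ‖z - p‖ → F z = g z := by
    intro z hz
    simp only [hF]
    rw [if_pos (Or.inr hz)]
  have hnear : ∀ z ∈ Metric.ball p (ε' / 2), F z = f z := by
    intro z hz
    have hz' : z ∈ Metric.ball p ε' := Metric.ball_subset_ball (by linarith) hz
    by_cases hlt : lam * ‖z‖ < 1
    · rw [hin z hlt]
      exact (hgs z hlt).unique ((hball z hz').2 hlt)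
    · simp only [hF]
      rw [if_neg]
      rintro (h | h)
      · exact hlt h
      · rw [Metric.mem_ball, dist_eq_norm] at hz
        linarith
  refine no_mero_closed F ?_ ?_
  · intro w hw
    rw [mem_closedBall_zero_iff, le_div_iff₀ hl, mul_comm] at hw
    by_cases ha : lam * ‖w‖ < 1
    · have e : F =ᶠ[𝓝 w] g := by
        filter_upwards [hopen.mem_nhds ha] with z hz
        exact hin z hz
      exact ((hgA w (hD2 w ha)).congr e.symm).meromorphicAt
    have hw1 : lam * ‖w‖ = 1 := le_antisymm hw (not_lt.1 ha)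
    by_cases hwn : w ∈ Metric.ball p (ε' / 2)
    · have e : F =ᶠ[𝓝 w] f := by
        filter_upwards [Metric.isOpen_ball.mem_nhds hwn] with z hz
        exact hnear z hz
      by_cases hwp : w = p
      · rw [hwp] at e ⊢
        exact hf.congr (e.symm.filter_mono nhdsWithin_le_nhds)
      · have hwb : w ∈ Metric.ball p ε' := Metric.ball_subset_ball (by linarith) hwn
        exact (((hball w hwb).1 hwp).congr e.symm).meromorphicAt
    · have hwp : w ≠ p := by
        rintro rfl
        exact hwn (Metric.mem_ball_self (by linarith))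
      have hwD := hD1 w hw1 hwp
      have e : F =ᶠ[𝓝 w] g := by
        by_cases hwb : w ∈ Metric.ball p ε'
        · -- both functions are analytic at `w` and agree inside the disc
          have hfA := (hball w hwb).1 hwp
          have hfreq : ∃ᶠ z in 𝓝[≠] w, f z = g z := by
            rw [frequently_nhdsWithin_iff]
            have hcl : w ∈ closure (Metric.ball (0 : ℂ) (1 / lam)) := by
              rw [closure_ball _ (by positivity), mem_closedBall_zero_iff, le_div_iff₀ hl, mul_comm]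
              exact hw
            have h2 := mem_closure_iff_frequently.1 hcl
            refine (h2.and_eventually (Metric.isOpen_ball.mem_nhds hwb)).mono ?_
            rintro z ⟨hz1, hz2⟩
            rw [mem_ball_zero_iff, lt_div_iff₀ hl, mul_comm] at hz1
            refine ⟨((hball z hz2).2 hz1).unique (hgs z hz1), ?_⟩
            rintro rfl
            exact ha hz1
          have h3 : ∀ᶠ z in 𝓝 w, f z = g z :=
            (hfA.frequently_eq_iff_eventually_eq (hgA w hwD)).1 hfreq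
          filter_upwards [h3] with z hz
          simp only [hF]
          split_ifs
          · rfl
          · exact hz
        · have hwb' : ε' / 2 < ‖w - p‖ := by
            rw [Metric.mem_ball, dist_eq_norm, not_lt] at hwb
            linarith
          have hop : IsOpen {z : ℂ | ε' / 2 < ‖z - p‖} := isOpen_lt continuous_const (by fun_prop)
          filter_upwards [hop.mem_nhds hwb'] with z hz
          exact hfar z (le_of_lt hz)
      exact ((hgA w hwD).congr e.symm).meromorphicAt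
  · intro z hz
    rw [lt_div_iff₀ hl, mul_comm] at hz
    rw [hin z hz]
    exact hgs z hz

end Pool.Agent.U954.PO
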