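import Pool.Agent.U954.PO.Rat

/-!
For every polynomial `Q ≠ 0` the series `Q * ∑ t(n) z^n` has the same radius of convergence as
`∑ t(n) z^n`.
-/

set_option autoImplicit false

namespace Pool.Agent.U954.PO

open Pool.Agent.N789.Kl Finset Filter Topology

/-- the generating function -/
noncomputable def TT : PowerSeries ℂ := PowerSeries.mk (fun n => (t n : ℂ))

/-- coefficients of exponential growth smaller than `lam ^ n` -/
def Sm (H : PowerSeries ℂ) : Prop :=
  ∃ μ C : ℝ, 0 < μ ∧ μ < lam ∧ ∀ n, ‖PowerSeries.coeff n H‖ ≤ C * μ ^ n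

/-- the means of `|h_n r^n|` tend to zero -/
def Cs (H : PowerSeries ℂ) (r : ℂ) : Prop :=
  ∀ ε : ℝ, 0 < ε → ∃ M₀ : ℕ, ∀ M, M₀ ≤ M →
    ∑ n ∈ range M, ‖PowerSeries.coeff n H * r ^ n‖ ≤ ε * M

/-- `H_n = h_n r^(n+1)` is minus a partial sum of `G(r)` -/
lemma part_sum {H G : PowerSeries ℂ} {r : ℂ} (h : (PowerSeries.X - PowerSeries.C r) * H = G) (n : ℕ) :
    PowerSeries.coeff n H * r ^ (n + 1) = -∑ j ∈ range (n + 1), PowerSeries.coeff j G * r ^ j := by
  have hc : ∀ j, PowerSeries.coeff j G =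
      (if j = 0 then 0 else PowerSeries.coeff (j - 1) H) - r * PowerSeries.coeff j H := by
    intro j
    rw [← h, sub_mul, map_sub, PowerSeries.coeff_C_mul]
    congr 1
    cases j with
    | zero => simp
    | succ j => simp [PowerSeries.coeff_succ_X_mul]
  induction n with
  | zero =>
    rw [sum_range_one, hc 0]
    simp
    ring
  | succ n ih =>
    rw [sum_range_succ, neg_add, ← ih, hc (n + 1)]
    simp only [Nat.succ_ne_zero, if_false, Nat.add_sub_cancel]
    ring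

lemma div_root {H G : PowerSeries ℂ} {r : ℂ} (h : (PowerSeries.X - PowerSeries.C r) * H = G)
    (hG : Sm G) (hH : lam * ‖r‖ ≤ 1 → Cs H r) : Sm H := by
  obtain ⟨μ, C, hμ0, hμ, hC⟩ := hG
  have hl := lam_pos
  have hC0 : 0 ≤ C := by
    have := hC 0
    rw [pow_zero, mul_one] at this
    exact (norm_nonneg _).trans this
  have hps := part_sum h
  by_cases hr : r = 0
  · subst hr
    refine ⟨μ, C * μ, hμ0, hμ, fun n => ?_⟩
    have h1 : PowerSeries.coeff (n + 1) G = PowerSeries.coeff n H := by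
      rw [← h]
      simp [PowerSeries.coeff_succ_X_mul]
    have h2 := hC (n + 1)
    rw [h1] at h2
    calc ‖PowerSeries.coeff n H‖ ≤ C * μ ^ (n + 1) := h2
      _ = C * μ * μ ^ n := by ring
  have hr0 : 0 < ‖r‖ := norm_pos_iff.2 hr
  by_cases hlr : lam * ‖r‖ ≤ 1
  · -- the series `G(r)` converges, its sum is zero
    have hμr : μ * ‖r‖ < 1 := by nlinarith
    have hμr0 : 0 < μ * ‖r‖ := by positivity
    have hb : ∀ j, ‖PowerSeries.coeff j G * r ^ j‖ ≤ C * (μ * ‖r‖) ^ j := by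
      intro j
      rw [norm_mul, norm_pow, mul_pow, ← mul_assoc]
      exact mul_le_mul_of_nonneg_right (hC j) (by positivity)
    have hgeo : Summable (fun j : ℕ => C * (μ * ‖r‖) ^ j) :=
      (summable_geometric_of_lt_one hμr0.le hμr).mul_left C
    have hsum : Summable (fun j : ℕ => PowerSeries.coeff j G * r ^ j) :=
      Summable.of_norm_bounded hgeo hb
    set g : ℂ := ∑' j : ℕ, PowerSeries.coeff j G * r ^ j with hg
    have htail : ∀ n, ‖g - ∑ j ∈ range (n + 1), PowerSeries.coeff j G * r ^ j‖ ≤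
        C / (1 - μ * ‖r‖) * (μ * ‖r‖) ^ (n + 1) := by
      intro n
      have h1 : g - ∑ j ∈ range (n + 1), PowerSeries.coeff j G * r ^ j =
          ∑' j : ℕ, PowerSeries.coeff (j + (n + 1)) G * r ^ (j + (n + 1)) := by
        rw [hg, ← hsum.sum_add_tsum_nat_add (n + 1)]
        ring
      rw [h1]
      have h2 : Summable (fun j : ℕ => C * (μ * ‖r‖) ^ (j + (n + 1))) := by
        exact (summable_nat_add_iff (n + 1)).2 hgeo
      refine (tsum_of_norm_bounded h2.hasSum (fun j => hb _)).trans (le_of_eq ?_)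
      have h3 : (fun j : ℕ => C * (μ * ‖r‖) ^ (j + (n + 1))) =
          fun j : ℕ => (C * (μ * ‖r‖) ^ (n + 1)) * (μ * ‖r‖) ^ j := by
        funext j
        rw [pow_add]
        ring
      rw [h3, tsum_mul_left, tsum_geometric_of_lt_one hμr0.le hμr]
      ring
    have hg0 : g = 0 := by
      by_contra hgne
      have hgp : 0 < ‖g‖ := norm_pos_iff.2 hgne
      -- lower bound for `|h_n r^n|`
      have hlow : ∀ n, ‖g‖ - C / (1 - μ * ‖r‖) * (μ * ‖r‖) ^ (n + 1) ≤
          ‖r‖ * ‖PowerSeries.coeff n H * r ^ n‖ := by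
        intro n
        have h1 : ‖PowerSeries.coeff n H * r ^ (n + 1)‖ = ‖r‖ * ‖PowerSeries.coeff n H * r ^ n‖ := by
          rw [norm_mul, norm_mul, norm_pow, norm_pow, pow_succ]
          ring
        rw [← h1, hps n, norm_neg]
        have h2 := htail n
        have h3 := norm_sub_norm_le g (∑ j ∈ range (n + 1), PowerSeries.coeff j G * r ^ j)
        linarith
      have hto : Tendsto (fun n : ℕ => C / (1 - μ * ‖r‖) * (μ * ‖r‖) ^ (n + 1)) atTop (𝓝 0) := by
        have := ((tendsto_pow_atTop_nhds_zero_of_lt_one hμr0.le hμr).comp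
          (tendsto_add_atTop_nat 1)).const_mul (C / (1 - μ * ‖r‖))
        simpa using this
      obtain ⟨n₀, hn₀⟩ := (hto.eventually (gt_mem_nhds (half_pos hgp))).exists_forall_of_atTop
      obtain ⟨M₀, hM₀⟩ := hH hlr (‖g‖ / (8 * ‖r‖)) (by positivity)
      set M : ℕ := M₀ + 2 * n₀ + 1 with hM
      have h4 := hM₀ M (by omega)
      have h5 : ((M : ℝ) - n₀) * (‖g‖ / (2 * ‖r‖)) ≤
          ∑ n ∈ range M, ‖PowerSeries.coeff n H * r ^ n‖ := by
        have e : ∑ n ∈ Ico n₀ M, ‖PowerSeries.coeff n H * r ^ n‖ ≤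
            ∑ n ∈ range M, ‖PowerSeries.coeff n H * r ^ n‖ := by
          apply sum_le_sum_of_subset_of_nonneg
          · intro x hx
            rw [mem_Ico] at hx
            exact mem_range.2 hx.2
          · intro _ _ _
            exact norm_nonneg _
        refine le_trans ?_ e
        have e2 : ∑ n ∈ Ico n₀ M, ‖g‖ / (2 * ‖r‖) ≤
            ∑ n ∈ Ico n₀ M, ‖PowerSeries.coeff n H * r ^ n‖ := by
          refine sum_le_sum (fun n hn => ?_)
          rw [mem_Ico] at hn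
          have a1 := hn₀ n hn.1
          have a2 := hlow n
          rw [div_le_iff₀ (by positivity)]
          have a3 : ‖PowerSeries.coeff n H * r ^ n‖ * (2 * ‖r‖) =
              2 * (‖r‖ * ‖PowerSeries.coeff n H * r ^ n‖) := by ring
          rw [a3]
          linarith
        refine le_trans (le_of_eq ?_) e2
        rw [sum_const, Nat.card_Ico, nsmul_eq_mul, Nat.cast_sub (by omega)]
      have h6 : ((M : ℝ) - n₀) * (‖g‖ / (2 * ‖r‖)) ≤ ‖g‖ / (8 * ‖r‖) * M := h5.trans h4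
      have h7 : (2 : ℝ) * n₀ + 1 ≤ M := by
        have : 2 * n₀ + 1 ≤ M := by omega
        exact_mod_cast this
      have hx : 0 < ‖g‖ / (8 * ‖r‖) := by positivity
      have h8 : ‖g‖ / (2 * ‖r‖) = 4 * (‖g‖ / (8 * ‖r‖)) := by
        field_simp
        ring
      rw [h8] at h6
      have h9 : (‖g‖ / (8 * ‖r‖)) * (4 * (M - n₀)) ≤ (‖g‖ / (8 * ‖r‖)) * M := by linarith
      have h10 := le_of_mul_le_mul_left h9 hx
      have h11 : (0 : ℝ) ≤ n₀ := Nat.cast_nonneg _
      linarith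
    refine ⟨μ, C / (1 - μ * ‖r‖) * μ, hμ0, hμ, fun n => ?_⟩
    have h1 := htail n
    rw [hg0, zero_sub, norm_neg] at h1
    have h2 : ‖PowerSeries.coeff n H * r ^ (n + 1)‖ ≤
        C / (1 - μ * ‖r‖) * (μ * ‖r‖) ^ (n + 1) := by
      rw [hps n, norm_neg]
      exact h1
    rw [norm_mul, norm_pow, mul_pow, ← mul_assoc] at h2
    have h3 := le_of_mul_le_mul_right h2 (by positivity)
    calc ‖PowerSeries.coeff n H‖ ≤ C / (1 - μ * ‖r‖) * μ ^ (n + 1) := h3
      _ = C / (1 - μ * ‖r‖) * μ * μ ^ n := by ring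
  · push Not at hlr
    obtain ⟨ν, hν1, hν2⟩ : ∃ ν, max μ (1 / ‖r‖) < ν ∧ ν < lam := by
      apply _root_.exists_between
      apply max_lt hμ
      rw [div_lt_iff₀ hr0]
      exact hlr
    have hν3 : μ ≤ ν := (le_max_left _ _).trans hν1.le
    have hν4 : 1 < ν * ‖r‖ := by
      have := (le_max_right μ (1 / ‖r‖)).trans_lt hν1
      rwa [div_lt_iff₀ hr0] at this
    have hν0 : 0 < ν := hμ0.trans_le hν3
    refine ⟨ν, C / (ν * ‖r‖ - 1) * ν, hν0, hν2, fun n => ?_⟩
    have h1 : ‖PowerSeries.coeff n H * r ^ (n + 1)‖ ≤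
        C / (ν * ‖r‖ - 1) * (ν * ‖r‖) ^ (n + 1) := by
      rw [hps n, norm_neg]
      calc ‖∑ j ∈ range (n + 1), PowerSeries.coeff j G * r ^ j‖
          ≤ ∑ j ∈ range (n + 1), ‖PowerSeries.coeff j G * r ^ j‖ := norm_sum_le _ _
        _ ≤ ∑ j ∈ range (n + 1), C * (ν * ‖r‖) ^ j := by
            refine sum_le_sum (fun j _ => ?_)
            rw [norm_mul, norm_pow, mul_pow, ← mul_assoc]
            refine mul_le_mul_of_nonneg_right ((hC j).trans ?_) (by positivity)
            gcongr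
        _ = C * (((ν * ‖r‖) ^ (n + 1) - 1) / (ν * ‖r‖ - 1)) := by
            rw [← mul_sum, geom_sum_eq hν4.ne']
        _ ≤ C / (ν * ‖r‖ - 1) * (ν * ‖r‖) ^ (n + 1) := by
            rw [mul_div_assoc', div_mul_eq_mul_div]
            apply div_le_div_of_nonneg_right _ (by linarith)
            nlinarith
    rw [norm_mul, norm_pow, mul_pow, ← mul_assoc] at h1
    have h3 := le_of_mul_le_mul_right h1 (by positivity)
    calc ‖PowerSeries.coeff n H‖ ≤ C / (ν * ‖r‖ - 1) * ν ^ (n + 1) := h3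
      _ = C / (ν * ‖r‖ - 1) * ν * ν ^ n := by ring

lemma cs_mul (Q : Polynomial ℂ) {r : ℂ} (hr : lam * ‖r‖ ≤ 1) :
    Cs ((Q : PowerSeries ℂ) * TT) r := by
  have hl := lam_pos
  intro ε hε
  set u : ℕ → ℝ := fun i => ‖Q.coeff i‖ * ‖r‖ ^ i with hu
  have hu0 : ∀ i, 0 ≤ u i := fun i => by positivity
  set B : ℝ := ∑ i ∈ range (Q.natDegree + 1), u i with hB
  have hB0 : 0 ≤ B := sum_nonneg (fun _ _ => hu0 _)
  obtain ⟨M₀, hM₀⟩ := cesaro (ε / (B + 1)) (by positivity)
  refine ⟨M₀, fun M hM => ?_⟩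
  have h1 : ∀ n, ‖PowerSeries.coeff n ((Q : PowerSeries ℂ) * TT) * r ^ n‖ ≤
      ∑ p ∈ HasAntidiagonal.antidiagonal n, u p.1 * aa p.2 := by
    intro n
    rw [PowerSeries.coeff_mul, sum_mul]
    refine (norm_sum_le _ _).trans (sum_le_sum (fun p hp => ?_))
    rw [HasAntidiagonal.mem_antidiagonal] at hp
    rw [← hp, pow_add]
    simp only [Polynomial.coeff_coe, TT, PowerSeries.coeff_mk, norm_mul, norm_pow,
      Complex.norm_natCast]
    have h2 : (t p.2 : ℝ) * ‖r‖ ^ p.2 ≤ aa p.2 := by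
      rw [t_eq_aa, mul_assoc, ← mul_pow]
      have h3 : (lam * ‖r‖) ^ p.2 ≤ 1 := pow_le_one₀ (by positivity) hr
      have := mul_le_mul_of_nonneg_left h3 (aa_nonneg p.2)
      linarith
    calc ‖Q.coeff p.1‖ * (t p.2 : ℝ) * (‖r‖ ^ p.1 * ‖r‖ ^ p.2)
        = u p.1 * ((t p.2 : ℝ) * ‖r‖ ^ p.2) := by rw [hu]; ring
      _ ≤ u p.1 * aa p.2 := mul_le_mul_of_nonneg_left h2 (hu0 _)
  have h4 : ∑ n ∈ range M, ∑ p ∈ HasAntidiagonal.antidiagonal n, u p.1 * aa p.2 ≤
      (∑ i ∈ range M, u i) * ∑ m ∈ range M, aa m := by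
    rw [sum_mul_sum, ← sum_product']
    have e : ∀ x ∈ (range M ×ˢ range M).filter (fun p => p.1 + p.2 < M), x.1 + x.2 ∈ range M := by
      intro x hx
      rw [mem_filter] at hx
      exact mem_range.2 hx.2
    have e2 : ∑ x ∈ (range M ×ˢ range M).filter (fun p => p.1 + p.2 < M), u x.1 * aa x.2 ≤
        ∑ x ∈ range M ×ˢ range M, u x.1 * aa x.2 := by
      apply sum_le_sum_of_subset_of_nonneg (filter_subset _ _)
      intro x _ _
      exact mul_nonneg (hu0 _) (aa_nonneg _)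
    refine le_trans (le_of_eq ?_) e2
    rw [← sum_fiberwise_of_maps_to e]
    refine sum_congr rfl (fun n hn => ?_)
    rw [mem_range] at hn
    refine sum_congr ?_ (fun _ _ => rfl)
    ext x
    rw [HasAntidiagonal.mem_antidiagonal, mem_filter, mem_filter, mem_product, mem_range, mem_range]
    omega
  have h5 : ∑ i ∈ range M, u i ≤ B := by
    rw [hB]
    have e : ∑ i ∈ range M, u i ≤ ∑ i ∈ range (M + (Q.natDegree + 1)), u i :=
      sum_le_sum_of_subset_of_nonneg (range_mono (by omega)) (fun _ _ _ => hu0 _)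
    refine e.trans (le_of_eq ?_)
    symm
    apply sum_subset (range_mono (by omega))
    intro i _ hi
    rw [mem_range] at hi
    rw [hu]
    simp only
    rw [Polynomial.coeff_eq_zero_of_natDegree_lt (by omega), norm_zero, zero_mul]
  have hs0 : 0 ≤ ∑ m ∈ range M, aa m := sum_nonneg (fun _ _ => aa_nonneg _)
  have h6 := hM₀ M hM
  calc ∑ n ∈ range M, ‖PowerSeries.coeff n ((Q : PowerSeries ℂ) * TT) * r ^ n‖
      ≤ ∑ n ∈ range M, ∑ p ∈ HasAntidiagonal.antidiagonal n, u p.1 * aa p.2 :=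
        sum_le_sum (fun n _ => h1 n)
    _ ≤ (∑ i ∈ range M, u i) * ∑ m ∈ range M, aa m := h4
    _ ≤ B * ∑ m ∈ range M, aa m := mul_le_mul_of_nonneg_right h5 hs0
    _ ≤ B * (ε / (B + 1) * M) := mul_le_mul_of_nonneg_left h6 hB0
    _ = (B / (B + 1)) * (ε * M) := by field_simp
    _ ≤ 1 * (ε * M) := by
        apply mul_le_mul_of_nonneg_right _ (by positivity)
        rw [div_le_one (by positivity)]
        linarith
    _ = ε * M := one_mul _

lemma not_sm_TT : ¬ Sm TT := by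
  rintro ⟨μ, C, hμ0, hμ, hC⟩
  have hl := lam_pos
  obtain ⟨ν, hν1, hν2⟩ := _root_.exists_between hμ
  have hν0 : 0 < ν := hμ0.trans hν1
  have h1 : ∀ᶠ n : ℕ in atTop, (ν / lam) ^ n ≤ aa n :=
    pow_le_aa (by positivity) ((div_lt_one hl).2 hν2)
  have h2 : Tendsto (fun n : ℕ => (ν / μ) ^ n) atTop atTop :=
    tendsto_pow_atTop_atTop_of_one_lt ((one_lt_div hμ0).2 hν1)
  obtain ⟨n, hn1, hn2⟩ := (h1.and (h2.eventually (eventually_gt_atTop C))).exists
  have h3 := hC n
  simp only [TT, PowerSeries.coeff_mk, Complex.norm_natCast] at h3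
  rw [t_eq_aa] at h3
  have h4 : (ν / lam) ^ n * lam ^ n ≤ C * μ ^ n :=
    (mul_le_mul_of_nonneg_right hn1 (by positivity)).trans h3
  rw [← mul_pow, div_mul_cancel₀ _ hl.ne'] at h4
  have h5 : ν ^ n = (ν / μ) ^ n * μ ^ n := by
    rw [← mul_pow, div_mul_cancel₀ _ hμ0.ne']
  rw [h5] at h4
  have h6 := le_of_mul_le_mul_right h4 (by positivity)
  linarith

theorem not_sm_mul : ∀ (d : ℕ) (Q : Polynomial ℂ), Q.natDegree = d → Q ≠ 0 →
    ¬ Sm ((Q : PowerSeries ℂ) * TT) := by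
  intro d
  induction d with
  | zero =>
    intro Q hd hQ hS
    obtain ⟨q, rfl⟩ := Polynomial.natDegree_eq_zero.1 hd
    have hq : q ≠ 0 := by
      rintro rfl
      simp at hQ
    apply not_sm_TT
    obtain ⟨μ, C, hμ0, hμ, hC⟩ := hS
    refine ⟨μ, C / ‖q‖, hμ0, hμ, fun n => ?_⟩
    have h1 := hC n
    rw [Polynomial.coe_C, PowerSeries.coeff_C_mul, norm_mul] at h1
    have hq0 : 0 < ‖q‖ := norm_pos_iff.2 hq
    rw [div_mul_eq_mul_div, le_div_iff₀ hq0]
    linarith
  | succ d ih =>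
    intro Q hd hQ hS
    obtain ⟨r, hr⟩ := IsAlgClosed.exists_root Q (by
      rw [Polynomial.degree_eq_natDegree hQ, hd]
      exact_mod_cast Nat.succ_ne_zero d)
    obtain ⟨R, hR⟩ := Polynomial.dvd_iff_isRoot.2 hr
    have hR0 : R ≠ 0 := by
      rintro rfl
      rw [mul_zero] at hR
      exact hQ hR
    have hRd : R.natDegree = d := by
      have h1 := congrArg Polynomial.natDegree hR
      rw [Polynomial.natDegree_mul (Polynomial.X_sub_C_ne_zero r) hR0, Polynomial.natDegree_X_sub_C,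
        hd] at h1
      omega
    apply ih R hRd hR0
    have h2 : (PowerSeries.X - PowerSeries.C r) * ((R : PowerSeries ℂ) * TT) =
        (Q : PowerSeries ℂ) * TT := by
      rw [hR, Polynomial.coe_mul, Polynomial.coe_sub, Polynomial.coe_X, Polynomial.coe_C]
      ring
    exact div_root h2 hS (fun h => cs_mul R h)

/-- **No meromorphic continuation**, in terms of coefficients -/
theorem not_small (Q : Polynomial ℂ) (hQ : Q ≠ 0) (μ : ℝ) (hμ0 : 0 < μ) (hμ : μ < lam) (C : ℝ) :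
    ¬ ∀ n, ‖PowerSeries.coeff n ((Q : PowerSeries ℂ) * TT)‖ ≤ C * μ ^ n :=
  fun h => not_sm_mul _ Q rfl hQ ⟨μ, C, hμ0, hμ, h⟩

end Pool.Agent.U954.PO
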