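import Mathlib

/-!
Orbits of a linear map of a finite-dimensional space whose means tend to zero decay exponentially.
-/

set_option autoImplicit false

namespace Pool.Agent.U954.PO

open Finset

theorem orbit_decay {E : Type*} [NormedAddCommGroup E] [NormedSpace ℂ E] [FiniteDimensional ℂ E]
    (L : E →ₗ[ℂ] E) (y : ℕ → E) (hy : ∀ k, L (y k) = y (k + 1))
    (hc : ∀ ε : ℝ, 0 < ε → ∃ M₀ : ℕ, ∀ M, M₀ ≤ M → ∑ k ∈ range M, ‖y k‖ ≤ ε * M) :
    ∃ N : ℕ, 1 ≤ N ∧ ∀ j : ℕ, ‖y (j * N)‖ ≤ (1 / 2) ^ j * ‖y 0‖ := by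
  classical
  obtain ⟨r, f, hf, hspan, hli⟩ : ∃ (r : ℕ) (f : Fin r → E), (∀ i, f i ∈ Set.range y) ∧
      Submodule.span ℂ (Set.range f) = Submodule.span ℂ (Set.range y) ∧ LinearIndependent ℂ f :=
    ⟨_, Submodule.exists_fun_fin_finrank_span_eq ℂ (Set.range y)⟩
  choose k hk using hf
  obtain ⟨K₀, hK₀, hanti⟩ := LinearMap.exists_antilipschitzWith (Fintype.linearCombination ℂ f) (by
    rw [LinearMap.ker_eq_bot]
    exact hli.fintypeLinearCombination_injective)
  have hpow : ∀ n m, (L ^ n) (y m) = y (m + n) := by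
    intro n
    induction n with
    | zero => intro m; simp
    | succ n ih =>
      intro m
      rw [pow_succ, Module.End.mul_apply, hy, ih]
      congr 1
      omega
  set g : ℕ → ℝ := fun n => ∑ i, ‖y (k i + n)‖ with hg
  have hstar : ∀ m n, ‖y (m + n)‖ ≤ K₀ * g n * ‖y m‖ := by
    intro m n
    have h1 : y m ∈ Submodule.span ℂ (Set.range f) := by
      rw [hspan]
      exact Submodule.subset_span ⟨m, rfl⟩
    obtain ⟨c, hcm⟩ := (Submodule.mem_span_range_iff_exists_fun ℂ).1 h1
    have h2 : y (m + n) = ∑ i, c i • y (k i + n) := by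
      rw [← hpow n m, ← hcm, map_sum]
      refine sum_congr rfl (fun i _ => ?_)
      rw [map_smul, ← hk i, hpow]
    have h3 : ‖c‖ ≤ K₀ * ‖y m‖ := by
      have := hanti.le_mul_dist c 0
      rw [dist_zero_right, map_zero, dist_zero_right] at this
      rw [← hcm]
      simpa [Fintype.linearCombination_apply] using this
    rw [h2]
    calc ‖∑ i, c i • y (k i + n)‖ ≤ ∑ i, ‖c i • y (k i + n)‖ := norm_sum_le _ _
      _ ≤ ∑ i, (K₀ * ‖y m‖) * ‖y (k i + n)‖ := by
          refine sum_le_sum (fun i _ => ?_)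
          rw [norm_smul]
          exact mul_le_mul_of_nonneg_right ((norm_le_pi_norm c i).trans h3) (norm_nonneg _)
      _ = K₀ * g n * ‖y m‖ := by rw [← mul_sum, hg]; ring
  have hK₀' : (0 : ℝ) < K₀ := by exact_mod_cast hK₀
  have hex : ∃ n : ℕ, 1 ≤ n ∧ K₀ * g n ≤ 1 / 2 := by
    by_contra hcon
    push Not at hcon
    set δ : ℝ := 1 / (2 * K₀) with hδ
    have hδ0 : 0 < δ := by positivity
    have hlow : ∀ n, 1 ≤ n → δ ≤ g n := by
      intro n hn
      have := hcon n hn
      rw [hδ, div_le_iff₀ (by positivity)]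
      linarith
    set Km : ℕ := ∑ i, k i with hKm
    have hki : ∀ i, k i ≤ Km := fun i => single_le_sum (f := k) (fun _ _ => Nat.zero_le _) (mem_univ i)
    obtain ⟨M₀, hM₀⟩ := hc (δ / (8 * (r + 1))) (by positivity)
    set N : ℕ := M₀ + Km + 2 with hN
    have h1 : ∑ n ∈ range N, g n ≤ r * (δ / (8 * (r + 1)) * ((N + Km : ℕ) : ℝ)) := by
      calc ∑ n ∈ range N, g n = ∑ i, ∑ n ∈ range N, ‖y (k i + n)‖ := by
            rw [hg, sum_comm]
        _ ≤ ∑ i : Fin r, δ / (8 * (r + 1)) * ((N + Km : ℕ) : ℝ) := by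
            refine sum_le_sum (fun i _ => ?_)
            refine le_trans ?_ (hM₀ (N + Km) (by omega))
            have e : ∑ n ∈ range N, ‖y (k i + n)‖ = ∑ n ∈ (range N).image (fun n => k i + n), ‖y n‖ := by
              rw [sum_image]
              intro a _ b _ hab
              simpa using hab
            rw [e]
            apply sum_le_sum_of_subset_of_nonneg
            · intro a ha
              rw [mem_image] at ha
              obtain ⟨n, hn, rfl⟩ := ha
              rw [mem_range] at hn ⊢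
              have := hki i
              omega
            · intro _ _ _
              exact norm_nonneg _
        _ = r * (δ / (8 * (r + 1)) * ((N + Km : ℕ) : ℝ)) := by
            rw [sum_const, card_univ, Fintype.card_fin, nsmul_eq_mul]
    have h2 : δ * ((N : ℝ) - 1) ≤ ∑ n ∈ range N, g n := by
      have hN1 : N = (N - 1) + 1 := by omega
      rw [hN1, sum_range_succ']
      have h3 : ∑ n ∈ range (N - 1), δ ≤ ∑ n ∈ range (N - 1), g (n + 1) :=
        sum_le_sum (fun n _ => hlow _ (by omega))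
      rw [sum_const, card_range, nsmul_eq_mul] at h3
      have h4 : 0 ≤ g 0 := sum_nonneg (fun _ _ => norm_nonneg _)
      have h5 : ((N - 1 : ℕ) : ℝ) = (N : ℝ) - 1 := by
        rw [Nat.cast_sub (by omega)]
        simp
      rw [h5] at h3
      have h6 : (((N - 1 + 1 : ℕ)) : ℝ) - 1 = (N : ℝ) - 1 := by
        rw [← hN1]
      rw [h6]
      linarith
    have h3 : (r : ℝ) * (δ / (8 * (r + 1)) * ((N + Km : ℕ) : ℝ)) ≤ δ / 8 * (2 * N) := by
      have a1 : ((N + Km : ℕ) : ℝ) ≤ 2 * N := by
        have : N + Km ≤ 2 * N := by omega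
        exact_mod_cast this
      have a2 : (r : ℝ) * (δ / (8 * (r + 1)) * ((N + Km : ℕ) : ℝ)) =
          (r / (r + 1)) * (δ / 8 * ((N + Km : ℕ) : ℝ)) := by
        field_simp
      rw [a2]
      have a3 : (r : ℝ) / (r + 1) ≤ 1 := by
        rw [div_le_one (by positivity)]
        linarith
      calc (r : ℝ) / (r + 1) * (δ / 8 * ((N + Km : ℕ) : ℝ)) ≤ 1 * (δ / 8 * ((N + Km : ℕ) : ℝ)) :=
            mul_le_mul_of_nonneg_right a3 (by positivity)
        _ ≤ δ / 8 * (2 * N) := by
            rw [one_mul]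
            exact mul_le_mul_of_nonneg_left a1 (by positivity)
    have hN2 : (2 : ℝ) ≤ N := by
      have : 2 ≤ N := by omega
      exact_mod_cast this
    nlinarith
  obtain ⟨N, hN, hg2⟩ := hex
  refine ⟨N, hN, fun j => ?_⟩
  induction j with
  | zero => simp
  | succ j ih =>
    have h1 := hstar (j * N) N
    have h2 : K₀ * g N * ‖y (j * N)‖ ≤ 1 / 2 * ‖y (j * N)‖ :=
      mul_le_mul_of_nonneg_right hg2 (norm_nonneg _)
    have e : (j + 1) * N = j * N + N := by ring
    rw [e, pow_succ]
    linarith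

/-- a real sequence which satisfies a linear recurrence and whose means tend to zero decays
exponentially along an arithmetic progression -/
theorem rec_decay (b : ℕ → ℂ) (d n₀ : ℕ) (hd : 1 ≤ d) (c : Fin d → ℂ)
    (hrec : ∀ k, n₀ ≤ k → b (k + d) = ∑ i : Fin d, c i * b (k + i))
    (hc : ∀ ε : ℝ, 0 < ε → ∃ M₀ : ℕ, ∀ M, M₀ ≤ M → ∑ k ∈ range M, ‖b k‖ ≤ ε * M) :
    ∃ (N : ℕ) (C : ℝ), 1 ≤ N ∧ ∀ j : ℕ, ‖b (n₀ + j * N)‖ ≤ (1 / 2) ^ j * C := by
  classical
  set y : ℕ → (Fin d → ℂ) := fun k i => b (n₀ + k + i) with hy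
  let L : (Fin d → ℂ) →ₗ[ℂ] (Fin d → ℂ) :=
    { toFun := fun v i => if h : i.1 + 1 < d then v ⟨i.1 + 1, h⟩ else ∑ l, c l * v l
      map_add' := by
        intro u v
        funext i
        simp only [Pi.add_apply]
        split_ifs with h
        · rfl
        · rw [← sum_add_distrib]
          exact sum_congr rfl (fun l _ => by ring)
      map_smul' := by
        intro a v
        funext i
        simp only [Pi.smul_apply, smul_eq_mul, RingHom.id_apply]
        split_ifs with h
        · rfl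
        · rw [mul_sum]
          exact sum_congr rfl (fun l _ => by ring) }
  have hL : ∀ k, L (y k) = y (k + 1) := by
    intro k
    funext i
    change (if h : i.1 + 1 < d then y k ⟨i.1 + 1, h⟩ else ∑ l, c l * y k l) = y (k + 1) i
    split_ifs with h
    · simp only [hy]
      congr 1
      omega
    · simp only [hy]
      have e : n₀ + (k + 1) + (i : ℕ) = n₀ + k + d := by
        have := i.2
        omega
      rw [e, hrec (n₀ + k) (by omega)]
  obtain ⟨N, hN, hdec⟩ := orbit_decay L y hL (by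
    intro ε hε
    obtain ⟨M₀, hM₀⟩ := hc (ε / (2 * (d + 1))) (by positivity)
    refine ⟨M₀ + n₀ + d, fun M hM => ?_⟩
    have h1 : ∀ k, ‖y k‖ ≤ ∑ i : Fin d, ‖b (n₀ + k + i)‖ := by
      intro k
      rw [pi_norm_le_iff_of_nonneg (sum_nonneg (fun _ _ => norm_nonneg _))]
      intro i
      exact single_le_sum (f := fun i : Fin d => ‖b (n₀ + k + i)‖) (fun _ _ => norm_nonneg _)
        (mem_univ i)
    calc ∑ k ∈ range M, ‖y k‖ ≤ ∑ k ∈ range M, ∑ i : Fin d, ‖b (n₀ + k + i)‖ :=
          sum_le_sum (fun k _ => h1 k)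
      _ = ∑ i : Fin d, ∑ k ∈ range M, ‖b (n₀ + k + i)‖ := sum_comm
      _ ≤ ∑ i : Fin d, ε / (2 * (d + 1)) * ((2 * M : ℕ) : ℝ) := by
          refine sum_le_sum (fun i _ => ?_)
          refine le_trans ?_ (hM₀ (2 * M) (by omega))
          have e : ∑ k ∈ range M, ‖b (n₀ + k + i)‖ =
              ∑ k ∈ (range M).image (fun k => n₀ + k + (i : ℕ)), ‖b k‖ := by
            rw [sum_image]
            intro x _ z _ hxz
            simp only at hxz
            omega
          rw [e]
          apply sum_le_sum_of_subset_of_nonneg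
          · intro a ha
            rw [mem_image] at ha
            obtain ⟨n, hn, rfl⟩ := ha
            rw [mem_range] at hn ⊢
            have := i.2
            omega
          · intro _ _ _
            exact norm_nonneg _
      _ = d * (ε / (2 * (d + 1)) * ((2 * M : ℕ) : ℝ)) := by
          rw [sum_const, card_univ, Fintype.card_fin, nsmul_eq_mul]
      _ = (d / (d + 1)) * (ε * M) := by
          push_cast
          field_simp
      _ ≤ 1 * (ε * M) := by
          apply mul_le_mul_of_nonneg_right _ (by positivity)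
          rw [div_le_one (by positivity)]
          linarith
      _ = ε * M := one_mul _)
  refine ⟨N, ‖y 0‖, hN, fun j => le_trans ?_ (hdec j)⟩
  have := norm_le_pi_norm (y (j * N)) ⟨0, hd⟩
  simpa [hy] using this

end Pool.Agent.U954.PO
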