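import Pool.Agent.U954.PO.Ces
import Pool.Agent.U954.PO.Rec

/-!
The generating function of fixed polyominoes is not rational.
-/

set_option autoImplicit false

namespace Pool.Agent.U954.PO

open Pool.Agent.N789.Kl Finset Filter Topology

lemma pow_le_aa {ρ : ℝ} (h0 : 0 < ρ) (h1 : ρ < 1) : ∀ᶠ n in atTop, ρ ^ n ≤ aa n := by
  have hl := lam_pos
  have h2 : ρ * lam < lam := by nlinarith
  filter_upwards [tendsto_lam.eventually (lt_mem_nhds h2), eventually_ge_atTop 1] with n hn hn1
  have h4 : (ρ * lam) ^ n ≤ t n := by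
    have h5 : 0 ≤ ρ * lam := by positivity
    have h6 := pow_le_pow_left₀ h5 hn.le n
    rw [one_div, Real.rpow_inv_natCast_pow (Nat.cast_nonneg _) (by omega)] at h6
    exact h6
  unfold aa
  rw [le_div_iff₀ (by positivity)]
  rwa [mul_pow] at h4

lemma no_decay (N n₀ : ℕ) (hN : 1 ≤ N) (C : ℝ) : ¬ ∀ j : ℕ, aa (n₀ + j * N) ≤ (1 / 2) ^ j * C := by
  intro h
  set ρ : ℝ := (3 / 4 : ℝ) ^ ((N : ℝ)⁻¹) with hρ
  have hN' : (0 : ℝ) < N := by exact_mod_cast hN
  have hρ0 : 0 < ρ := by positivity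
  have hρ1 : ρ < 1 := Real.rpow_lt_one (by norm_num) (by norm_num) (by positivity)
  have hρN : ρ ^ N = 3 / 4 := by
    rw [hρ]
    exact Real.rpow_inv_natCast_pow (by norm_num) (by omega)
  have h1 : Tendsto (fun j : ℕ => n₀ + j * N) atTop atTop := by
    apply tendsto_atTop_mono (fun j => ?_) tendsto_id
    simp only [id]
    nlinarith
  have h2 := h1.eventually (pow_le_aa hρ0 hρ1)
  have h3 : Tendsto (fun j : ℕ => ρ ^ n₀ * (3 / 2 : ℝ) ^ j) atTop atTop :=
    (tendsto_pow_atTop_atTop_of_one_lt (by norm_num)).const_mul_atTop (by positivity)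
  obtain ⟨j, hj1, hj2⟩ := (h2.and (h3.eventually (eventually_gt_atTop C))).exists
  have h4 := hj1.trans (h j)
  rw [pow_add, mul_comm j N, pow_mul, hρN] at h4
  have h5 : (3 / 4 : ℝ) ^ j = (1 / 2) ^ j * (3 / 2) ^ j := by
    rw [← mul_pow]
    norm_num
  rw [h5] at h4
  have h6 : (0 : ℝ) < (1 / 2) ^ j := by positivity
  have h7 : (1 / 2 : ℝ) ^ j * (ρ ^ n₀ * (3 / 2) ^ j) ≤ (1 / 2) ^ j * C := by linarith
  have h8 := le_of_mul_le_mul_left h7 h6
  linarith

theorem rec_of_rational {P Q : Polynomial ℂ} (hQ : Q ≠ 0) (u : ℕ → ℂ)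
    (h : (Q : PowerSeries ℂ) * PowerSeries.mk u = (P : PowerSeries ℂ)) :
    ∃ (d n₀ : ℕ) (c : Fin d → ℂ), 1 ≤ d ∧
      ∀ k, n₀ ≤ k → u (k + d) = ∑ i : Fin d, c i * u (k + i) := by
  classical
  set i₀ := Q.natTrailingDegree with hi₀
  set D := Q.natDegree with hD
  have hiD : i₀ ≤ D := Polynomial.natTrailingDegree_le_natDegree Q
  have hq0 : Q.coeff i₀ ≠ 0 := by
    have : Q.trailingCoeff ≠ 0 := Polynomial.trailingCoeff_nonzero_iff_nonzero.2 hQ
    exact this
  refine ⟨D - i₀ + 1, P.natDegree + 1,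
    fun i => -Q.coeff (i₀ + (D - i₀ + 1) - i) / Q.coeff i₀, by omega, fun k hk => ?_⟩
  set d := D - i₀ + 1 with hd
  set n := k + d + i₀ with hn
  have h1 : ∑ j ∈ range (n + 1), Q.coeff j * u (n - j) = 0 := by
    have h2 := congrArg (PowerSeries.coeff n) h
    rw [PowerSeries.coeff_mul] at h2
    simp only [Polynomial.coeff_coe, PowerSeries.coeff_mk] at h2
    rw [Polynomial.coeff_eq_zero_of_natDegree_lt (by omega : P.natDegree < n),
      Finset.Nat.sum_antidiagonal_eq_sum_range_succ (fun a b => Q.coeff a * u b)] at h2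
    exact h2
  have h2 : ∑ j ∈ range (n + 1), Q.coeff j * u (n - j) =
      ∑ l ∈ range (d + 1), Q.coeff (i₀ + l) * u (k + d - l) := by
    have e : ∑ l ∈ range (d + 1), Q.coeff (i₀ + l) * u (k + d - l) =
        ∑ j ∈ (range (d + 1)).image (fun l => i₀ + l), Q.coeff j * u (n - j) := by
      rw [sum_image (fun a _ b _ hab => by simpa using hab)]
      refine sum_congr rfl (fun l hl => ?_)
      rw [mem_range] at hl
      congr 2
      omega
    rw [e]
    symm
    apply sum_subset
    · intro j hj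
      rw [mem_image] at hj
      obtain ⟨l, hl, rfl⟩ := hj
      rw [mem_range] at hl ⊢
      omega
    · intro j _ hj
      have hc : Q.coeff j = 0 := by
        by_cases hlt : j < i₀
        · exact Polynomial.coeff_eq_zero_of_lt_natTrailingDegree hlt
        · apply Polynomial.coeff_eq_zero_of_natDegree_lt
          by_contra hcon
          apply hj
          rw [mem_image]
          exact ⟨j - i₀, by rw [mem_range]; omega, by omega⟩
      rw [hc, zero_mul]
  rw [h2, sum_range_succ'] at h1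
  have h3 : ∑ l ∈ range d, Q.coeff (i₀ + (l + 1)) * u (k + d - (l + 1)) =
      ∑ i ∈ range d, Q.coeff (i₀ + d - i) * u (k + i) := by
    rw [← sum_range_reflect]
    refine sum_congr rfl (fun i hi => ?_)
    rw [mem_range] at hi
    congr 2
    · omega
    · omega
  rw [h3] at h1
  simp only [add_zero, Nat.sub_zero] at h1
  have h4 : u (k + d) = -(∑ i ∈ range d, Q.coeff (i₀ + d - i) * u (k + i)) / Q.coeff i₀ := by
    rw [eq_div_iff hq0]
    linear_combination h1
  rw [h4, sum_range, neg_div, sum_div, ← sum_neg_distrib]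
  refine sum_congr rfl (fun i _ => ?_)
  ring

/-- **The generating function of fixed polyominoes is not rational.** -/
theorem not_rational : ¬ ∃ P Q : Polynomial ℂ, Q ≠ 0 ∧
    (Q : PowerSeries ℂ) * PowerSeries.mk (fun n => (t n : ℂ)) = (P : PowerSeries ℂ) := by
  rintro ⟨P, Q, hQ, h⟩
  obtain ⟨d, n₀, c, hd, hrec⟩ := rec_of_rational hQ _ h
  have hl := lam_pos
  have hl' : (lam : ℂ) ≠ 0 := by exact_mod_cast hl.ne'
  set b : ℕ → ℂ := fun n => (aa n : ℂ) with hb
  have htb : ∀ n, (t n : ℂ) = b n * (lam : ℂ) ^ n := by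
    intro n
    have := t_eq_aa n
    rw [hb]
    simp only
    have h2 : ((t n : ℝ) : ℂ) = ((aa n * lam ^ n : ℝ) : ℂ) := by rw [this]
    push_cast at h2
    exact h2
  have hnb : ∀ n, ‖b n‖ = aa n := by
    intro n
    rw [hb]
    simp only [Complex.norm_real, Real.norm_eq_abs]
    exact abs_of_nonneg (aa_nonneg n)
  obtain ⟨N, C, hN, hdec⟩ := rec_decay b d n₀ hd (fun i => c i * (lam : ℂ) ^ (i : ℕ) / (lam : ℂ) ^ d)
    (by
      intro k hk
      have h1 := hrec k hk
      simp only [htb] at h1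
      have h2 : b (k + d) * (lam : ℂ) ^ (k + d) =
          (∑ i : Fin d, c i * (lam : ℂ) ^ (i : ℕ) / (lam : ℂ) ^ d * b (k + i)) * (lam : ℂ) ^ (k + d) := by
        rw [h1, sum_mul]
        refine sum_congr rfl (fun i _ => ?_)
        rw [pow_add, pow_add]
        field_simp
      exact mul_right_cancel₀ (pow_ne_zero _ hl') h2)
    (by
      intro ε hε
      simp only [hnb]
      exact cesaro ε hε)
  apply no_decay N n₀ hN C
  intro j
  rw [← hnb]
  exact hdec j

end Pool.Agent.U954.PO
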